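import Pool.Agent.Lib.MP_540347_an.SC.Defs

set_option autoImplicit false

open Set Filter Topology

namespace Pool.Agent.Lib.MP_540347_an.SC

theorem aff_abs_le {J : ℕ} {q s : ℕ → ℝ} (x₀ : ℝ) (α : ℕ → ℝ) (hq0 : ∀ j < J, 0 < q j)
    (hq1 : ∀ j < J, q j < 1) (hs : ∀ j < J, 0 ≤ s j ∧ s j ≤ 1) :
    |aff J q x₀ α s| ≤ |x₀| + ∑ i ∈ Finset.range J, |α i| := by
  unfold aff
  refine (abs_add_le _ _).trans (add_le_add le_rfl ((Finset.abs_sum_le_sum_abs _ _).trans
    (Finset.sum_le_sum fun i hi => ?_)))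
  have hi' := Finset.mem_range.1 hi
  rw [abs_mul]
  refine mul_le_of_le_one_right (abs_nonneg _) (abs_le.2 ⟨?_, ?_⟩)
  · linarith [hq1 i hi', (hs i hi').1]
  · linarith [hq0 i hi', (hs i hi').2]

theorem aff_approx {J l : ℕ} {q s α X : ℕ → ℝ} {η : ℝ} (hη : 0 ≤ η) (hl : l ≤ J)
    (hX : ∀ j < J, X (j + 1) = X j + α j * (1 - q j)) (hs : ∀ j < J, s j ≤ 1)
    (ha : Act J q η l s) :
    |aff J q (X 0) α s - (X l + if l < J then α l * (s l - q l) else 0)| ≤
      η * ∑ i ∈ Finset.range J, |α i| := by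
  have tel : ∀ m ≤ J, X m = X 0 + ∑ i ∈ Finset.range m, α i * (1 - q i) := by
    intro m hm
    induction m with
    | zero => simp
    | succ m ih => rw [Finset.sum_range_succ, hX m (by omega), ih (by omega)]; ring
  have main : ∀ m, l ≤ m → m ≤ J → |∑ i ∈ Finset.range m, α i * (s i - q i) -
      (∑ i ∈ Finset.range l, α i * (1 - q i) + if l < m then α l * (s l - q l) else 0)| ≤
      η * ∑ i ∈ Finset.range m, |α i| := by
    intro m hm
    induction m, hm using Nat.le_induction with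
    | base =>
      intro _
      rw [if_neg (lt_irrefl _), add_zero, ← Finset.sum_sub_distrib, Finset.mul_sum]
      refine (Finset.abs_sum_le_sum_abs _ _).trans (Finset.sum_le_sum fun i hi => ?_)
      have hi' := Finset.mem_range.1 hi
      rw [← mul_sub, abs_mul, mul_comm]
      refine mul_le_mul_of_nonneg_right (abs_le.2 ⟨?_, ?_⟩) (abs_nonneg _)
      · linarith [ha.1 i hi']
      · linarith [hs i (by omega)]
    | succ m hm ih =>
      intro hmJ
      have h1 := ih (by omega)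
      rw [Finset.sum_range_succ, Finset.sum_range_succ, if_pos (by omega : l < m + 1), mul_add]
      rcases hm.eq_or_lt with rfl | hlt
      · rw [if_neg (lt_irrefl _), add_zero] at h1
        rw [add_sub_add_right_eq_sub]
        exact h1.trans (le_add_of_nonneg_right (mul_nonneg hη (abs_nonneg _)))
      · rw [if_pos hlt] at h1
        have h2 : |α m * (s m - q m)| ≤ η * |α m| := by
          rw [abs_mul, mul_comm]
          exact mul_le_mul_of_nonneg_right (ha.2 m (by omega) hlt) (abs_nonneg _)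
        rw [add_sub_right_comm]
        exact (abs_add_le _ _).trans (add_le_add h1 h2)
  have h := main J hl le_rfl
  rw [tel l hl]
  unfold aff
  convert h using 2
  ring

theorem conv_abs {p : ℝ} (hp : 1 < p) {s : ℝ} (h0 : 0 ≤ s) (h1 : s ≤ 1) (a b : ℝ) :
    |s * a + (1 - s) * b| ^ p ≤ s * |a| ^ p + (1 - s) * |b| ^ p := by
  have h2 : 0 ≤ 1 - s := by linarith
  have h3 : |s * a + (1 - s) * b| ≤ s * |a| + (1 - s) * |b| := by
    refine (abs_add_le _ _).trans ?_
    rw [abs_mul, abs_mul, abs_of_nonneg h0, abs_of_nonneg h2]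
  refine (Real.rpow_le_rpow (abs_nonneg _) h3 (by linarith)).trans ?_
  have h4 := (convexOn_rpow hp.le).2 (mem_Ici.2 (abs_nonneg a)) (mem_Ici.2 (abs_nonneg b)) h0 h2
    (by ring)
  simpa only [smul_eq_mul] using h4

theorem unif_abs {p : ℝ} (hp : 1 < p) (M : ℝ) {δ : ℝ} (hδ : 0 < δ) :
    ∃ ε : ℝ, 0 < ε ∧ ∀ x y : ℝ, |x| ≤ M → |x - y| ≤ ε → |(|x| ^ p - |y| ^ p)| ≤ δ := by
  have hc : Continuous fun x : ℝ => |x| ^ p :=
    continuous_abs.rpow_const fun _ => Or.inr (by linarith)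
  have hu := (isCompact_Icc (a := -(M + 1)) (b := M + 1)).uniformContinuousOn_of_continuous
    hc.continuousOn
  obtain ⟨ε, hε, h⟩ := Metric.uniformContinuousOn_iff_le.1 hu δ hδ
  refine ⟨min ε 1, lt_min hε one_pos, fun x y hx hxy => ?_⟩
  have h1 := abs_le.1 hx
  have h2 := abs_le.1 (hxy.trans (min_le_right _ _))
  exact h x ⟨by linarith, by linarith⟩ y ⟨by linarith, by linarith⟩
    (hxy.trans (min_le_left _ _))

theorem small_mul {η ε S : ℝ} (hε : 0 < ε) (hS : 0 ≤ S) (h : η ≤ ε / (S + 1)) : η * S ≤ ε := by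
  have h1 : η * S ≤ ε / (S + 1) * S := mul_le_mul_of_nonneg_right h hS
  have h2 : ε / (S + 1) * S ≤ ε := by
    rw [div_mul_eq_mul_div, div_le_iff₀ (by linarith)]
    nlinarith
  linarith

theorem IsChain.jensen {p : ℝ} (hp : 1 < p) {J : ℕ} {w q e U W A B : ℕ → ℝ}
    (h : IsChain p J w q e U W A B) : ∀ j ≤ J, |U j| ^ p ≤ A j := by
  have main : ∀ d j, j + d = J → |U j| ^ p ≤ A j := by
    intro d
    induction d with
    | zero =>
      intro j hj
      rw [show j = J by omega, h.A_last]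
    | succ d ih =>
      intro j hj
      have hjJ : j < J := by omega
      have h1 := conv_abs hp (h.q_pos j hjJ).le (h.q_lt j hjJ).le (U (j + 1)) (U j - w j * q j)
      have e1 : q j * U (j + 1) + (1 - q j) * (U j - w j * q j) = U j := by
        rw [h.U_succ j hjJ]; ring
      rw [e1] at h1
      rw [h.A_step j hjJ]
      have h2 := mul_le_mul_of_nonneg_left (ih (j + 1) (by omega)) (h.q_pos j hjJ).le
      linarith
  exact fun j hj => main (J - j) j (by omega)

/-- The affine majorant. -/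
theorem IsChain.upper {p : ℝ} (hp : 1 < p) {J : ℕ} {w q e U W A B : ℕ → ℝ}
    (h : IsChain p J w q e U W A B) {δ : ℝ} (hδ : 0 < δ) :
    ∃ η₀ : ℝ, 0 < η₀ ∧ ∀ η : ℝ, 0 ≤ η → η ≤ η₀ → ∀ s : ℕ → ℝ, (∀ j < J, 0 ≤ s j ∧ s j ≤ 1) →
      ∀ l ≤ J, Act J q η l s → |aff J q (U 0) w s| ^ p ≤
        aff J q (A 0) (fun i => A (i + 1) - |U i - w i * q i| ^ p) s + δ := by
  obtain ⟨ε, hε, hu⟩ := unif_abs hp (|U 0| + ∑ i ∈ Finset.range J, |w i|) (half_pos hδ)
  have hS1 : 0 ≤ ∑ i ∈ Finset.range J, |w i| := Finset.sum_nonneg fun _ _ => abs_nonneg _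
  have hS2 : 0 ≤ ∑ i ∈ Finset.range J, |A (i + 1) - |U i - w i * q i| ^ p| :=
    Finset.sum_nonneg fun _ _ => abs_nonneg _
  refine ⟨min (ε / (∑ i ∈ Finset.range J, |w i| + 1))
    (δ / 2 / (∑ i ∈ Finset.range J, |A (i + 1) - |U i - w i * q i| ^ p| + 1)),
    lt_min (by positivity) (by positivity), fun η h0 h1 s hs l hl ha => ?_⟩
  have a1 := (aff_approx h0 hl h.U_succ (fun j hj => (hs j hj).2) ha).trans
    (small_mul hε hS1 (h1.trans (min_le_left _ _)))
  have a2 := (aff_approx (X := A) (α := fun i => A (i + 1) - |U i - w i * q i| ^ p) h0 hl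
    (fun j hj => by rw [h.A_step j hj]; ring) (fun j hj => (hs j hj).2) ha).trans
    (small_mul (half_pos hδ) hS2 (h1.trans (min_le_right _ _)))
  have a3 := hu _ _ (aff_abs_le (U 0) w h.q_pos h.q_lt hs) a1
  have a4 : |U l + if l < J then w l * (s l - q l) else 0| ^ p ≤
      A l + if l < J then (A (l + 1) - |U l - w l * q l| ^ p) * (s l - q l) else 0 := by
    split_ifs with hlJ
    · have h2 := conv_abs hp (hs l hlJ).1 (hs l hlJ).2 (U (l + 1)) (U l - w l * q l)
      have e1 : s l * U (l + 1) + (1 - s l) * (U l - w l * q l) = U l + w l * (s l - q l) := by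
        rw [h.U_succ l hlJ]; ring
      rw [e1] at h2
      have h3 := mul_le_mul_of_nonneg_left (h.jensen hp (l + 1) hlJ) (hs l hlJ).1
      rw [h.A_step l hlJ]
      linarith
    · simpa using h.jensen hp l hl
  linarith [(abs_le.1 a2).1, (abs_le.1 a3).2]

/-- The affine minorant at stopping and terminal points. -/
theorem IsChain.lower {p : ℝ} (hp : 1 < p) {J : ℕ} {w q e U W A B : ℕ → ℝ}
    (h : IsChain p J w q e U W A B) {δ : ℝ} (hδ : 0 < δ) :
    ∃ η₀ : ℝ, 0 < η₀ ∧ ∀ η : ℝ, 0 ≤ η → η ≤ η₀ → ∀ s : ℕ → ℝ, (∀ j < J, 0 ≤ s j ∧ s j ≤ 1) →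
      ((∃ l < J, Act J q η l s ∧ s l = 0) ∨ Act J q η J s) →
        aff J q (B 0) (fun i => B (i + 1) - |W i - e i * w i * q i| ^ p) s - δ ≤
          |aff J q (W 0) (fun i => e i * w i) s| ^ p := by
  obtain ⟨ε, hε, hu⟩ := unif_abs hp (|W 0| + ∑ i ∈ Finset.range J, |e i * w i|) (half_pos hδ)
  have hS1 : 0 ≤ ∑ i ∈ Finset.range J, |e i * w i| := Finset.sum_nonneg fun _ _ => abs_nonneg _
  have hS2 : 0 ≤ ∑ i ∈ Finset.range J, |B (i + 1) - |W i - e i * w i * q i| ^ p| :=
    Finset.sum_nonneg fun _ _ => abs_nonneg _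
  refine ⟨min (ε / (∑ i ∈ Finset.range J, |e i * w i| + 1))
    (δ / 2 / (∑ i ∈ Finset.range J, |B (i + 1) - |W i - e i * w i * q i| ^ p| + 1)),
    lt_min (by positivity) (by positivity), fun η h0 h1 s hs hcase => ?_⟩
  have key : ∀ l ≤ J, Act J q η l s → (l < J → s l = 0) →
      aff J q (B 0) (fun i => B (i + 1) - |W i - e i * w i * q i| ^ p) s - δ ≤
        |aff J q (W 0) (fun i => e i * w i) s| ^ p := by
    intro l hl ha hz
    have a1 := (aff_approx (α := fun i => e i * w i) h0 hl h.W_succ (fun j hj => (hs j hj).2)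
      ha).trans (small_mul hε hS1 (h1.trans (min_le_left _ _)))
    have a2 := (aff_approx (X := B) (α := fun i => B (i + 1) - |W i - e i * w i * q i| ^ p) h0 hl
      (fun j hj => by rw [h.B_step j hj]; ring) (fun j hj => (hs j hj).2) ha).trans
      (small_mul (half_pos hδ) hS2 (h1.trans (min_le_right _ _)))
    have a3 := hu _ _ (aff_abs_le (W 0) (fun i => e i * w i) h.q_pos h.q_lt hs) a1
    have a4 : |W l + if l < J then e l * w l * (s l - q l) else 0| ^ p =
        B l + if l < J then (B (l + 1) - |W l - e l * w l * q l| ^ p) * (s l - q l) else 0 := by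
      split_ifs with hlJ
      · rw [hz hlJ, h.B_step l hlJ, show W l + e l * w l * (0 - q l) = W l - e l * w l * q l by ring]
        ring
      · rw [add_zero, add_zero, show l = J by omega, h.B_last]
    linarith [(abs_le.1 a2).2, (abs_le.1 a3).1]
  rcases hcase with ⟨l, hl, ha, hz⟩ | ha
  · exact key l hl.le ha fun _ => hz
  · exact key J le_rfl ha fun hh => absurd hh (lt_irrefl _)

end Pool.Agent.Lib.MP_540347_an.SC
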