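import Pool.Agent.Lib.MP_540347_an.SC.Defs

set_option autoImplicit false

open Set Filter Topology

namespace Pool.Agent.Lib.MP_540347_an.SC

/-- The payoff. -/
noncomputable def chV (p c : ℝ) (P : ℝ × ℝ) : ℝ := |P.2| ^ p - c ^ p * |P.1| ^ p

/-- Some chain starts at `P` and has value `v`. -/
def Ch (p c : ℝ) (P : ℝ × ℝ) (v : ℝ) : Prop :=
  ∃ (J : ℕ) (w q e U W A B : ℕ → ℝ), IsChain p J w q e U W A B ∧ U 0 = P.1 ∧ W 0 = P.2 ∧
    B 0 - c ^ p * A 0 = v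

/-- Put a new first term. -/
def chCons (a : ℝ) (f : ℕ → ℝ) : ℕ → ℝ
  | 0 => a
  | j + 1 => f j

lemma ch_nil (p c : ℝ) (P : ℝ × ℝ) : Ch p c P (chV p c P) :=
  ⟨0, fun _ => 0, fun _ => 0, fun _ => 1, fun _ => P.1, fun _ => P.2, fun _ => |P.1| ^ p,
    fun _ => |P.2| ^ p, ⟨by simp, by simp, by simp, by simp, by simp, by simp, by simp, rfl, rfl⟩,
    rfl, rfl, rfl⟩

/-- Closed under a first survive or stop step. -/
def ChClosed (𝒞 : ℝ × ℝ → ℝ → Prop) (W : ℝ × ℝ → ℝ) : Prop :=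
  ∀ (d₁ d₂ q α : ℝ) (P : ℝ × ℝ) (v : ℝ), (d₁ = 1 ∨ d₁ = -1) → (d₂ = 1 ∨ d₂ = -1) → 0 < q → q < 1 →
    𝒞 (P.1 + d₁ * (α * (1 - q)), P.2 + d₂ * (α * (1 - q))) v →
    𝒞 P (q * v + (1 - q) * W (P.1 + d₁ * (α * (-q)), P.2 + d₂ * (α * (-q))))

lemma ch_closed (p c : ℝ) : ChClosed (Ch p c) (chV p c) := by
  rintro d₁ d₂ q α P v h₁ h₂ q0 q1 ⟨J, w, q', e, U, W, A, B, h, hU, hW, hv⟩
  have hd : d₁ * d₁ = 1 := by rcases h₁ with rfl | rfl <;> norm_num
  have he : d₂ * d₁ * (d₁ * α) = d₂ * α := by rw [mul_assoc d₂, ← mul_assoc d₁, hd, one_mul]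
  refine ⟨J + 1, chCons (d₁ * α) w, chCons q q', chCons (d₂ * d₁) e, chCons P.1 U, chCons P.2 W,
    chCons (q * A 0 + (1 - q) * |P.1 - d₁ * α * q| ^ p) A,
    chCons (q * B 0 + (1 - q) * |P.2 - d₂ * d₁ * (d₁ * α) * q| ^ p) B,
    ⟨?_, ?_, ?_, ?_, ?_, ?_, ?_, h.A_last, h.B_last⟩, rfl, rfl, ?_⟩
  · rintro (_ | j) hj
    · exact q0
    · exact h.q_pos j (by omega)
  · rintro (_ | j) hj
    · exact q1
    · exact h.q_lt j (by omega)
  · rintro (_ | j)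
    · show d₂ * d₁ = 1 ∨ d₂ * d₁ = -1
      rcases h₁ with rfl | rfl <;> rcases h₂ with rfl | rfl <;> norm_num
    · exact h.sgn j
  · rintro (_ | j) hj
    · show U 0 = P.1 + d₁ * α * (1 - q)
      rw [hU]; ring
    · exact h.U_succ j (by omega)
  · rintro (_ | j) hj
    · show W 0 = P.2 + d₂ * d₁ * (d₁ * α) * (1 - q)
      rw [hW, he]; ring
    · exact h.W_succ j (by omega)
  · rintro (_ | j) hj
    · rfl
    · exact h.A_step j (by omega)
  · rintro (_ | j) hj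
    · rfl
    · exact h.B_step j (by omega)
  · show q * B 0 + (1 - q) * |P.2 - d₂ * d₁ * (d₁ * α) * q| ^ p -
      c ^ p * (q * A 0 + (1 - q) * |P.1 - d₁ * α * q| ^ p) = _
    unfold chV
    rw [he, ← hv, show P.1 + d₁ * (α * -q) = P.1 - d₁ * α * q by ring,
      show P.2 + d₂ * (α * -q) = P.2 - d₂ * α * q by ring]
    ring

lemma ChClosed.swap {𝒞 : ℝ × ℝ → ℝ → Prop} {W : ℝ × ℝ → ℝ} (h : ChClosed 𝒞 W) :
    ChClosed (fun P => 𝒞 P.swap) (fun P => W P.swap) :=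
  fun d₁ d₂ q α P v h₁ h₂ q0 q1 hc => h d₂ d₁ q α P.swap v h₂ h₁ q0 q1 hc

lemma ch_step {𝒞 : ℝ × ℝ → ℝ → Prop} {W : ℝ × ℝ → ℝ} (hG : ChClosed 𝒞 W) {s p δ ϖ : ℝ}
    (hs0 : 0 < s) (hδ0 : 0 < δ) (hδ : δ < s)
    (hW₁ : ∀ t : ℝ, 0 < t → W (s * t, (1 - s) * t) = ϖ * t ^ p)
    (hW₂ : ∀ t : ℝ, 0 < t → W (-(s * t), (1 - s) * t) = ϖ * t ^ p)
    {b : ℝ} (h : ∀ t : ℝ, 0 < t → 𝒞 (0, t) (b * t ^ p)) (t : ℝ) (ht : 0 < t) :
    𝒞 (0, t) ((s / (s + δ) * ((s * (1 + 2 * δ) - δ) / (s * (1 + 2 * δ))) * (1 + 2 * δ) ^ p * b +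
        (s / (s + δ) * (δ / (s * (1 + 2 * δ))) * (1 + 2 * δ) ^ p * ϖ + δ / (s + δ) * ϖ)) * t ^ p) := by
  set μ := s * (1 + 2 * δ) - δ with hμ
  have hμ0 : 0 < μ := by nlinarith
  have hsd : 0 < s + δ := by linarith
  have hs2 : 0 < s * (1 + 2 * δ) := by positivity
  have p1 : ((0 : ℝ) + 1 * ((s + δ) * t * (1 - s / (s + δ))),
      t + 1 * ((s + δ) * t * (1 - s / (s + δ)))) = (δ * t, (1 + δ) * t) := by
    refine Prod.ext ?_ ?_ <;> simp only <;> field_simp <;> ring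
  have p2 : ((0 : ℝ) + 1 * ((s + δ) * t * (-(s / (s + δ)))),
      t + 1 * ((s + δ) * t * (-(s / (s + δ))))) = (-(s * t), (1 - s) * t) := by
    refine Prod.ext ?_ ?_ <;> simp only <;> field_simp <;> ring
  have p3 : (δ * t + -1 * (s * (1 + 2 * δ) * t * (1 - μ / (s * (1 + 2 * δ)))),
      (1 + δ) * t + 1 * (s * (1 + 2 * δ) * t * (1 - μ / (s * (1 + 2 * δ)))))
      = (0, (1 + 2 * δ) * t) := by
    refine Prod.ext ?_ ?_ <;> simp only <;> field_simp <;> rw [hμ] <;> ring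
  have p4 : (δ * t + -1 * (s * (1 + 2 * δ) * t * (-(μ / (s * (1 + 2 * δ))))),
      (1 + δ) * t + 1 * (s * (1 + 2 * δ) * t * (-(μ / (s * (1 + 2 * δ))))))
      = (s * ((1 + 2 * δ) * t), (1 - s) * ((1 + 2 * δ) * t)) := by
    refine Prod.ext ?_ ?_ <;> simp only <;> field_simp <;> rw [hμ] <;> ring
  have ht2 : 0 < (1 + 2 * δ) * t := by positivity
  have v1 := hG (-1) 1 (μ / (s * (1 + 2 * δ))) (s * (1 + 2 * δ) * t) (δ * t, (1 + δ) * t) _
    (Or.inr rfl) (Or.inl rfl) (by positivity) (by rw [div_lt_one hs2]; linarith)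
    (by simp only [p3]; exact h _ ht2)
  simp only [p4] at v1
  have v2 := hG 1 1 (s / (s + δ)) ((s + δ) * t) (0, t) _ (Or.inl rfl) (Or.inl rfl) (by positivity)
    (by rw [div_lt_one hsd]; linarith) (by simp only [p1]; exact v1)
  simp only [p2] at v2
  rw [hW₁ _ ht2, hW₂ _ ht, Real.mul_rpow (by positivity) ht.le] at v2
  have e1 : 1 - μ / (s * (1 + 2 * δ)) = δ / (s * (1 + 2 * δ)) := by
    field_simp; rw [hμ]; ring
  have e2 : 1 - s / (s + δ) = δ / (s + δ) := by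
    field_simp; ring
  rw [e1, e2] at v2
  convert v2 using 1
  ring

lemma ch_iter {𝒞 : ℝ × ℝ → ℝ → Prop} {W : ℝ × ℝ → ℝ} (hG : ChClosed 𝒞 W) {s p δ ϖ b₀ : ℝ}
    (hs0 : 0 < s) (hδ0 : 0 < δ) (hδ : δ < s) (hϖ : 0 ≤ ϖ)
    (hW₁ : ∀ t : ℝ, 0 < t → W (s * t, (1 - s) * t) = ϖ * t ^ p)
    (hW₂ : ∀ t : ℝ, 0 < t → W (-(s * t), (1 - s) * t) = ϖ * t ^ p)
    (h₀ : ∀ t : ℝ, 0 < t → 𝒞 (0, t) (b₀ * t ^ p)) (k : ℕ) :
    ∃ b, (∀ t : ℝ, 0 < t → 𝒞 (0, t) (b * t ^ p)) ∧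
      (s / (s + δ) * ((s * (1 + 2 * δ) - δ) / (s * (1 + 2 * δ))) * (1 + 2 * δ) ^ p) ^ (k + 1) * b₀
        + δ / (s + δ) * ϖ ≤ b := by
  have hμ0 : 0 < s * (1 + 2 * δ) - δ := by nlinarith
  set Q := s / (s + δ) * ((s * (1 + 2 * δ) - δ) / (s * (1 + 2 * δ))) * (1 + 2 * δ) ^ p with hQ
  have hQ0 : 0 ≤ Q := by positivity
  have hR1 : 0 ≤ s / (s + δ) * (δ / (s * (1 + 2 * δ))) * (1 + 2 * δ) ^ p * ϖ := by positivity
  have hR2 : 0 ≤ δ / (s + δ) * ϖ := by positivity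
  induction k with
  | zero =>
    exact ⟨_, ch_step hG hs0 hδ0 hδ hW₁ hW₂ h₀, by rw [zero_add, pow_one]; linarith⟩
  | succ k ih =>
    obtain ⟨b, h, hb⟩ := ih
    refine ⟨_, ch_step hG hs0 hδ0 hδ hW₁ hW₂ h, ?_⟩
    have : Q * (Q ^ (k + 1) * b₀) ≤ Q * b := mul_le_mul_of_nonneg_left (by linarith) hQ0
    rw [pow_succ' Q (k + 1), mul_assoc Q]
    linarith

lemma ch_big {p c : ℝ} (hc0 : 0 < c) (hc : c < p - 1) : ∃ v, Ch p c (1, 1) v ∧ 0 < v := by
  have hp : 1 < p := by linarith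
  set s := 1 / (1 + c) with hs
  have hs0 : 0 < s := by positivity
  have hs1 : s < 1 := by rw [hs, div_lt_one (by linarith)]; linarith
  have hcs : 1 - s = c * s := by rw [hs]; field_simp; ring
  have hps : 1 < p * s := by rw [hs, mul_one_div, one_lt_div (by linarith)]; linarith
  set δ := min s ((p * s - 1) / (p + 1)) / 2 with hδ
  have hm : 0 < min s ((p * s - 1) / (p + 1)) :=
    lt_min hs0 (div_pos (by linarith) (by linarith))
  have hδ0 : 0 < δ := by linarith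
  have hδ1 : δ < s := by linarith [min_le_left s ((p * s - 1) / (p + 1))]
  have hδ2 : δ * (p + 1) < p * s - 1 := by
    rw [← lt_div_iff₀ (by linarith)]; linarith [min_le_right s ((p * s - 1) / (p + 1))]
  have hμ0 : 0 < s * (1 + 2 * δ) - δ := by nlinarith
  set Q := s / (s + δ) * ((s * (1 + 2 * δ) - δ) / (s * (1 + 2 * δ))) * (1 + 2 * δ) ^ p with hQ
  have hQ1 : 1 < Q := by
    have h1 : 1 + p * (2 * δ) ≤ (1 + 2 * δ) ^ p :=
      one_add_mul_self_le_rpow_one_add (by linarith) hp.le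
    have h2 : Q = (s * (1 + 2 * δ) - δ) * (1 + 2 * δ) ^ p / ((s + δ) * (1 + 2 * δ)) := by
      rw [hQ]; field_simp
    rw [h2, one_lt_div (by positivity)]
    refine lt_of_lt_of_le ?_ (mul_le_mul_of_nonneg_left h1 hμ0.le)
    have h3 : 0 < δ * (p * s - 1 - δ * (p + 1)) := mul_pos hδ0 (by linarith)
    have h4 : 0 < δ * δ * (p * s) := by positivity
    nlinarith
  obtain ⟨k, hk⟩ := ((tendsto_pow_atTop_atTop_of_one_lt hQ1).eventually_gt_atTop (c ^ p)).exists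
  have hst : ∀ t : ℝ, 0 < t → |(1 - s) * t| ^ p - c ^ p * |s * t| ^ p = 0 * t ^ p := by
    intro t ht
    rw [hcs, abs_of_pos (by positivity), abs_of_pos (by positivity), mul_assoc,
      Real.mul_rpow hc0.le (by positivity)]
    ring
  obtain ⟨b, hax, hb⟩ := ch_iter (ch_closed p c) (p := p) (ϖ := 0) (b₀ := 1)
    hs0 hδ0 hδ1 le_rfl (fun t ht => hst t ht) (fun t ht => by
      unfold chV; simp only [abs_neg]; exact hst t ht)
    (fun t ht => by
      convert ch_nil p c (0, t) using 1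
      unfold chV; simp only [abs_zero]
      rw [Real.zero_rpow (by linarith), abs_of_pos ht]; ring) k
  have hb' : c ^ p < b := by
    have : Q ^ k ≤ Q ^ (k + 1) := pow_le_pow_right₀ hQ1.le (Nat.le_succ k)
    rw [mul_one, mul_zero, add_zero] at hb
    linarith
  refine ⟨_, ch_closed p c (-1) 1 (1 / 2) 2 (1, 1) (b * 2 ^ p) (Or.inr rfl) (Or.inl rfl)
    (by norm_num) (by norm_num) (by convert hax 2 (by norm_num) using 2 <;> norm_num), ?_⟩
  unfold chV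
  norm_num
  rw [Real.zero_rpow (by linarith)]
  have : (0 : ℝ) < 2 ^ p := by positivity
  nlinarith

lemma ch_small {p c : ℝ} (hp : 1 < p) (hp2 : p ≤ 2) (hc0 : 0 < c) (hc : c * (p - 1) < 1) :
    ∃ v, Ch p c (1, 0) v ∧ 0 < v := by
  have hlt : c / (1 + c) < 1 / p := by
    rw [div_lt_div_iff₀ (by linarith) (by linarith)]; linarith
  obtain ⟨s, hsl, hsu⟩ := exists_between hlt
  have hs0 : 0 < s := lt_trans (by positivity) hsl
  have hps : p * s < 1 := by rw [lt_div_iff₀ (by linarith)] at hsu; linarith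
  have hs1 : s < 1 := by nlinarith
  have hcs : c * (1 - s) < s := by rw [div_lt_iff₀ (by linarith)] at hsl; linarith
  set δ := min s (1 - p * s) / 2 with hδ
  have hm : 0 < min s (1 - p * s) := lt_min hs0 (by linarith)
  have hδ0 : 0 < δ := by linarith
  have hδ1 : δ < s := by linarith [min_le_left s (1 - p * s)]
  have hδ2 : δ < 1 - p * s := by linarith [min_le_right s (1 - p * s)]
  have hμ0 : 0 < s * (1 + 2 * δ) - δ := by nlinarith
  set Q := s / (s + δ) * ((s * (1 + 2 * δ) - δ) / (s * (1 + 2 * δ))) * (1 + 2 * δ) ^ p with hQ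
  have hQ0 : 0 ≤ Q := by positivity
  have hQ1 : Q < 1 := by
    have h1 : (1 + 2 * δ) ^ (p - 1) ≤ 1 + (p - 1) * (2 * δ) :=
      rpow_one_add_le_one_add_mul_self (by linarith) (by linarith) (by linarith)
    have h0 : (1 + 2 * δ) ^ p = (1 + 2 * δ) ^ (p - 1) * (1 + 2 * δ) := by
      rw [← Real.rpow_add_one (by positivity)]; ring_nf
    have h2 : Q = (s * (1 + 2 * δ) - δ) * (1 + 2 * δ) ^ (p - 1) / (s + δ) := by
      rw [hQ, h0]; field_simp
    rw [h2, div_lt_one (by positivity)]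
    refine lt_of_le_of_lt (mul_le_mul_of_nonneg_left h1 hμ0.le) ?_
    have h3 : 0 < δ * (1 - p * s - δ) := mul_pos hδ0 (by linarith)
    have h5 : (p - 1) * (2 * s - 1) ≤ 1 := by nlinarith
    have h4 : δ * δ * ((p - 1) * (2 * s - 1)) ≤ δ * δ * 1 :=
      mul_le_mul_of_nonneg_left h5 (by positivity)
    nlinarith
  set ϖ := s ^ p - (c * (1 - s)) ^ p with hϖ
  have hϖ0 : 0 < ϖ := by
    have := Real.rpow_lt_rpow (by have : 0 < 1 - s := by linarith
                                  positivity) hcs (show 0 < p by linarith)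
    linarith
  have hR : 0 < δ / (s + δ) * ϖ := by positivity
  have hlim : Tendsto (fun k : ℕ => Q ^ (k + 1) * (c ^ p)) atTop (𝓝 0) := by
    have := ((tendsto_pow_atTop_nhds_zero_of_lt_one hQ0 hQ1).comp
      (tendsto_add_atTop_nat 1)).mul_const (c ^ p)
    simpa using this
  obtain ⟨k, hk⟩ := (hlim.eventually (gt_mem_nhds hR)).exists
  have hst : ∀ t : ℝ, 0 < t → |s * t| ^ p - c ^ p * |(1 - s) * t| ^ p = ϖ * t ^ p := by
    intro t ht
    have : 0 < 1 - s := by linarith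
    rw [abs_of_pos (by positivity), abs_of_pos (by positivity), hϖ,
      Real.mul_rpow hs0.le ht.le, Real.mul_rpow this.le ht.le, Real.mul_rpow hc0.le this.le]
    ring
  obtain ⟨b, hax, hb⟩ := ch_iter (ch_closed p c).swap (p := p) (ϖ := ϖ) (b₀ := -c ^ p)
    hs0 hδ0 hδ1 hϖ0.le (fun t ht => hst t ht) (fun t ht => by
      unfold chV; simp only [Prod.swap_prod_mk, abs_neg]; exact hst t ht)
    (fun t ht => by
      show Ch p c (t, 0) _
      convert ch_nil p c (t, 0) using 1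
      unfold chV; simp only [abs_zero]
      rw [Real.zero_rpow (by linarith), abs_of_pos ht]; ring) k
  refine ⟨_, hax 1 one_pos, ?_⟩
  rw [Real.one_rpow]
  linarith

/-- Burkholder's zigzag as a survive or stop chain. -/
theorem exists_chain {p c : ℝ} (hp : 1 < p) (hc0 : 0 ≤ c) (hc : c < max p (p / (p - 1)) - 1) :
    ∃ (J : ℕ) (w q e U W A B : ℕ → ℝ), IsChain p J w q e U W A B ∧ |W 0| ≤ |U 0| ∧
      c ^ p * A 0 < B 0 := by
  have key : ∃ (P : ℝ × ℝ) (v : ℝ), |P.2| ≤ |P.1| ∧ Ch p c P v ∧ 0 < v := by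
    rcases hc0.eq_or_lt with h0 | hc0
    · refine ⟨(1, 1), _, le_rfl, ch_nil p c _, ?_⟩
      unfold chV
      rw [← h0, Real.zero_rpow (by linarith)]
      simp
    by_cases h : c < p - 1
    · obtain ⟨v, h1, h2⟩ := ch_big hc0 h
      exact ⟨(1, 1), v, le_rfl, h1, h2⟩
    · have h1 : c < p / (p - 1) - 1 := by
        rcases le_total p (p / (p - 1)) with h' | h'
        · rwa [max_eq_right h'] at hc
        · rw [max_eq_left h'] at hc; exact absurd hc h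
      have h2 : c * (p - 1) < 1 := by
        rw [lt_sub_iff_add_lt, lt_div_iff₀ (by linarith)] at h1; linarith
      have h3 : p ≤ 2 := by
        by_contra h4
        push Not at h h4
        nlinarith
      obtain ⟨v, h1, h2⟩ := ch_small hp h3 hc0 h2
      exact ⟨(1, 0), v, by simp, h1, h2⟩
  obtain ⟨P, v, h0, ⟨J, w, q, e, U, W, A, B, h, hU, hW, hv⟩, hpos⟩ := key
  exact ⟨J, w, q, e, U, W, A, B, h, by rw [hU, hW]; exact h0, by linarith⟩

end Pool.Agent.Lib.MP_540347_an.SC
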