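import Mathlib

set_option autoImplicit false

open Set InnerProductSpace

namespace Pool.Agent.Lib.MP_540347_an.SC

/-- Euclidean space. -/
abbrev E (n : ℕ) : Type := EuclideanSpace ℝ (Fin n)

/-- Squared distance to `(t,0,0,0)` in four chosen coordinates. -/
noncomputable def Q {n : ℕ} (i₀ i₁ i₂ i₃ : Fin n) (t : ℝ) (z : E n) : ℝ :=
  (z i₀ - t) ^ 2 + (z i₁ ^ 2 + z i₂ ^ 2 + z i₃ ^ 2)

/-- A survive or stop chain: a martingale `U` and its transform `W` by the signs `e`;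
`A j`, `B j` are the expected `p`-th powers of the final values given survival up to stage `j`. -/
structure IsChain (p : ℝ) (J : ℕ) (w q e U W A B : ℕ → ℝ) : Prop where
  q_pos : ∀ j < J, 0 < q j
  q_lt : ∀ j < J, q j < 1
  sgn : ∀ j, e j = 1 ∨ e j = -1
  U_succ : ∀ j < J, U (j + 1) = U j + w j * (1 - q j)
  W_succ : ∀ j < J, W (j + 1) = W j + e j * w j * (1 - q j)
  A_step : ∀ j < J, A j = q j * A (j + 1) + (1 - q j) * |U j - w j * q j| ^ p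
  B_step : ∀ j < J, B j = q j * B (j + 1) + (1 - q j) * |W j - e j * w j * q j| ^ p
  A_last : A J = |U J| ^ p
  B_last : B J = |W J| ^ p

/-- Only stage `l` is active. -/
def Act (J : ℕ) (q : ℕ → ℝ) (η : ℝ) (l : ℕ) (s : ℕ → ℝ) : Prop :=
  (∀ i < l, 1 - η ≤ s i) ∧ ∀ i < J, l < i → |s i - q i| ≤ η

/-- The affine combination. -/
noncomputable def aff (J : ℕ) (q : ℕ → ℝ) (x₀ : ℝ) (α s : ℕ → ℝ) : ℝ :=
  x₀ + ∑ i ∈ Finset.range J, α i * (s i - q i)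

/-- The geometric package. -/
structure Geo (n J : ℕ) (q e : ℕ → ℝ) (η : ℝ) (D : Set (E n)) (s : ℕ → E n → ℝ)
    (K : E n → ℝ) : Prop where
  isOpen : IsOpen D
  conn : IsConnected D
  bdd : Bornology.IsBounded D
  zero_mem : (0 : E n) ∈ D
  s_harm : ∀ j < J, ∀ z ∈ closure D, HarmonicAt (s j) z
  K_harm : ∀ z ∈ closure D, HarmonicAt K z
  s_zero : ∀ j < J, s j 0 = q j
  s_mem : ∀ j < J, ∀ z ∈ closure D, 0 ≤ s j z ∧ s j z ≤ 1
  sep : ∀ i : Fin n, ∃ σ : ℝ, (σ = 1 ∨ σ = -1) ∧ ∀ j < J, e j ≠ σ → ∀ z ∈ D,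
    fderiv ℝ (s j) z (EuclideanSpace.single i (1 : ℝ)) = 0
  act : ∀ z ∈ D, ∃ l ≤ J, Act J q η l (fun i => s i z)
  K_nonneg : ∀ z ∈ closure D, 0 ≤ K z
  K_zero : K 0 ≤ η
  bdry : ∀ z ∈ closure D, z ∉ D → 1 ≤ K z ∨
    (∃ l < J, Act J q η l (fun i => s i z) ∧ s l z = 0) ∨ Act J q η J (fun i => s i z)

end Pool.Agent.Lib.MP_540347_an.SC
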