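import Pool.Agent.Lib.MP_540347_an.SC.Geo
import Pool.Agent.Lib.MP_540347_an.SC.Chain
import Pool.Agent.Lib.MP_540347_an.SC.Real

set_option autoImplicit false

open Set InnerProductSpace Filter Topology

namespace Pool.Agent.Lib.MP_540347_an.SC

theorem main (n : ℕ) (hn : 8 ≤ n) (p : ℝ) (hp : 1 < p) (c : ℝ) (hc0 : 0 ≤ c)
    (hc : c < max p (p / (p - 1)) - 1) :
    ∃ (D : Set (E n)) (u v : E n → ℝ),
      IsOpen D ∧ IsConnected D ∧ Bornology.IsBounded D ∧ (0 : E n) ∈ D ∧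
      HarmonicOnNhd u D ∧ HarmonicOnNhd v D ∧
      (∀ x ∈ D, ∀ i : Fin n, |fderiv ℝ v x (EuclideanSpace.single i (1 : ℝ))| =
        |fderiv ℝ u x (EuclideanSpace.single i (1 : ℝ))|) ∧
      |v 0| ≤ |u 0| ∧ (∃ M : ℝ, ∀ x ∈ D, |u x| ≤ M ∧ |v x| ≤ M) ∧
      ∃ h : E n → ℝ, HarmonicOnNhd h D ∧ (∀ x ∈ D, |u x| ^ p ≤ h x) ∧
        ∃ ε : ℝ, 0 < ε ∧ ∀ g : E n → ℝ, HarmonicOnNhd g D → (∀ x ∈ D, |v x| ^ p ≤ g x) →
          c ^ p * h 0 + ε ≤ g 0 := by
  classical
  obtain ⟨J, w, q, e, U, W, A, B, hC, hWU, hAB⟩ := exists_chain hp hc0 hc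
  have hcp : 0 ≤ c ^ p := Real.rpow_nonneg hc0 p
  obtain ⟨γ, hγ⟩ : ∃ γ : ℝ, γ = B 0 - c ^ p * A 0 := ⟨_, rfl⟩
  have hγ0 : 0 < γ := by linarith
  obtain ⟨δ, hδ⟩ : ∃ δ : ℝ, δ = γ / (4 * (1 + c ^ p)) := ⟨_, rfl⟩
  have hδ0 : 0 < δ := by rw [hδ]; positivity
  have hδγ : (1 + c ^ p) * δ = γ / 4 := by rw [hδ]; field_simp
  obtain ⟨η₁, hη₁, hup⟩ := hC.upper hp hδ0
  obtain ⟨η₂, hη₂, hlo⟩ := hC.lower hp hδ0
  let β : ℕ → ℝ := fun i => B (i + 1) - |W i - e i * w i * q i| ^ p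
  let α : ℕ → ℝ := fun i => A (i + 1) - |U i - w i * q i| ^ p
  obtain ⟨M, hM⟩ : ∃ M : ℝ, M = |B 0| + ∑ i ∈ Finset.range J, |β i| := ⟨_, rfl⟩
  have hM0 : 0 ≤ M := by rw [hM]; positivity
  obtain ⟨η₃, hη₃, hη₃q⟩ : ∃ η₃ : ℝ, 0 < η₃ ∧ ∀ j < J, η₃ < q j := by
    have h1 : ∀ᶠ t : ℝ in 𝓝[>] 0, ∀ j ∈ Finset.range J, t < q j :=
      (eventually_all_finset _).2 fun j hj => mem_nhdsWithin_of_mem_nhds
        (gt_mem_nhds (hC.q_pos j (Finset.mem_range.1 hj)))
    obtain ⟨t, ht1, ht2⟩ := (h1.and self_mem_nhdsWithin).exists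
    exact ⟨t, ht2, fun j hj => ht1 j (Finset.mem_range.2 hj)⟩
  obtain ⟨η, hη0, h1, h2, h3, h4, h5⟩ : ∃ η : ℝ, 0 < η ∧ η ≤ η₁ ∧ η ≤ η₂ ∧ η ≤ η₃ ∧ η ≤ 1 / 2 ∧
      η ≤ γ / (4 * (M + 1)) :=
    ⟨min η₁ (min η₂ (min η₃ (min (1 / 2) (γ / (4 * (M + 1)))))), by positivity, min_le_left _ _,
      (min_le_right _ _).trans (min_le_left _ _),
      (min_le_right _ _).trans ((min_le_right _ _).trans (min_le_left _ _)),
      (min_le_right _ _).trans ((min_le_right _ _).trans ((min_le_right _ _).trans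
        (min_le_left _ _))),
      (min_le_right _ _).trans ((min_le_right _ _).trans ((min_le_right _ _).trans
        (min_le_right _ _)))⟩
  have hMη : M * η ≤ γ / 4 := by
    rw [le_div_iff₀ (by positivity)] at h5
    nlinarith
  obtain ⟨D, s, K, G⟩ := exists_geo hn J hC.q_pos hC.q_lt hC.sgn hη0 (by linarith)
    (fun j hj => lt_of_le_of_lt h3 (hη₃q j hj))
  have hH : ∀ (x₀ : ℝ) (a : ℕ → ℝ), ∀ z ∈ closure D,
      HarmonicAt (fun x => aff J q x₀ a (fun i => s i x)) z := fun x₀ a z hz =>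
    harm_aff q x₀ a fun j hj => G.s_harm j hj z hz
  have hH0 : ∀ (x₀ : ℝ) (a : ℕ → ℝ), aff J q x₀ a (fun i => s i 0) = x₀ := by
    intro x₀ a
    unfold aff
    rw [Finset.sum_eq_zero fun i hi => by
      simp only [G.s_zero i (Finset.mem_range.1 hi), sub_self, mul_zero], add_zero]
  have hHb : ∀ (x₀ : ℝ) (a : ℕ → ℝ), ∀ z ∈ closure D,
      |aff J q x₀ a (fun i => s i z)| ≤ |x₀| + ∑ i ∈ Finset.range J, |a i| := fun x₀ a z hz =>
    aff_abs_le x₀ a hC.q_pos hC.q_lt fun j hj => G.s_mem j hj z hz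
  have hHc : ∀ (x₀ : ℝ) (a : ℕ → ℝ),
      ContinuousOn (fun x => aff J q x₀ a (fun i => s i x)) (closure D) := fun x₀ a z hz =>
    (hH x₀ a z hz).1.continuousAt.continuousWithinAt
  refine ⟨D, fun x => aff J q (U 0) w (fun i => s i x),
    fun x => aff J q (W 0) (fun i => e i * w i) (fun i => s i x), G.isOpen, G.conn, G.bdd,
    G.zero_mem, fun z hz => hH _ _ z (subset_closure hz), fun z hz => hH _ _ z (subset_closure hz),
    fun x hx i => ?_, ?_, ⟨(|U 0| + ∑ i ∈ Finset.range J, |w i|) +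
      (|W 0| + ∑ i ∈ Finset.range J, |e i * w i|), fun x hx => ⟨?_, ?_⟩⟩,
    fun x => aff J q (A 0) α (fun i => s i x) + δ, fun z hz => ?_, fun x hx => ?_,
    γ / 4, by positivity, fun g hg hvg => ?_⟩
  · obtain ⟨σ, hσ, hz⟩ := G.sep i
    have hs : ∀ j < J, HarmonicAt (s j) x := fun j hj => G.s_harm j hj x (subset_closure hx)
    rw [fderiv_aff q _ _ hs, fderiv_aff q _ _ hs]
    have : ∑ j ∈ Finset.range J, e j * w j * fderiv ℝ (s j) x (EuclideanSpace.single i (1 : ℝ)) =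
        σ * ∑ j ∈ Finset.range J, w j * fderiv ℝ (s j) x (EuclideanSpace.single i (1 : ℝ)) := by
      rw [Finset.mul_sum]
      refine Finset.sum_congr rfl fun j hj => ?_
      by_cases h : e j = σ
      · rw [h]; ring
      · rw [hz j (Finset.mem_range.1 hj) h x hx]; ring
    rw [this, abs_mul]
    rcases hσ with h | h <;> simp [h]
  · simp only [hH0]
    exact hWU
  · exact (hHb _ _ x (subset_closure hx)).trans (le_add_of_nonneg_right (by positivity))
  · exact (hHb _ _ x (subset_closure hx)).trans (le_add_of_nonneg_left (by positivity))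
  · exact (hH _ _ z (subset_closure hz)).add (harmonicAt_const δ)
  · obtain ⟨l, hl, ha⟩ := G.act x hx
    exact hup η hη0.le h1 _ (fun j hj => G.s_mem j hj x (subset_closure hx)) l hl ha
  · have key := min_principle (by omega) G.isOpen G.bdd
      (w := fun x => g x - aff J q (B 0) β (fun i => s i x) + δ + M * K x)
      (φ := fun x => |aff J q (W 0) (fun i => e i * w i) (fun i => s i x)| ^ p -
        aff J q (B 0) β (fun i => s i x) + δ + M * K x)
      (fun z hz => (((hg z hz).sub (hH _ _ z (subset_closure hz))).add (harmonicAt_const δ)).add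
        (harm_mul M (G.K_harm z (subset_closure hz))))
      (by
        refine ((ContinuousOn.sub ?_ (hHc _ _)).add continuousOn_const).add
          (continuousOn_const.mul fun z hz => (G.K_harm z hz).1.continuousAt.continuousWithinAt)
        exact (hHc _ _).abs.rpow_const fun _ _ => Or.inr (by linarith))
      (fun z hz => by linarith [hvg z hz])
      (fun z hz hz' => by
        have k0 := G.K_nonneg z hz
        have v0 : 0 ≤ |aff J q (W 0) (fun i => e i * w i) (fun i => s i z)| ^ p :=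
          Real.rpow_nonneg (abs_nonneg _) p
        rcases G.bdry z hz hz' with h | h
        · have b1 := (le_abs_self _).trans (hHb (B 0) β z hz)
          have b2 : M * 1 ≤ M * K z := mul_le_mul_of_nonneg_left h hM0
          linarith
        · have b1 := hlo η hη0.le h2 _ (fun j hj => G.s_mem j hj z hz) h
          have b2 : 0 ≤ M * K z := mul_nonneg hM0 k0
          linarith) 0 G.zero_mem
    simp only [hH0] at key ⊢
    have b3 : M * K 0 ≤ M * η := mul_le_mul_of_nonneg_left G.K_zero hM0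
    nlinarith

end Pool.Agent.Lib.MP_540347_an.SC
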