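import Pool.Agent.Lib.MP_540347_an.SC.MinP

set_option autoImplicit false

open Set InnerProductSpace Filter Topology

namespace Pool.Agent.Lib.MP_540347_an.SC

lemma exists_blocks {n : ℕ} (hn : 8 ≤ n) {e : ℕ → ℝ} (he : ∀ j, e j = 1 ∨ e j = -1) :
    ∃ κ : ℕ → Fin 4 → Fin n, (∀ j, Function.Injective (κ j)) ∧
      ∀ i : Fin n, ∃ σ : ℝ, (σ = 1 ∨ σ = -1) ∧ ∀ j, e j ≠ σ → ∀ k, i ≠ κ j k := by
  classical
  refine ⟨fun j k => if e j = 1 then ⟨k, by omega⟩ else ⟨k + 4, by omega⟩, fun j k k' h => ?_,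
    fun i => ?_⟩
  · by_cases h1 : e j = 1
    · simp only [h1, if_true, Fin.mk.injEq] at h
      exact Fin.ext h
    · simp only [h1, if_false, Fin.mk.injEq] at h
      exact Fin.ext (by omega)
  · by_cases hi : (i : ℕ) < 4
    · refine ⟨1, Or.inl rfl, fun j hj k h => ?_⟩
      simp only [hj, if_false] at h
      have := congrArg Fin.val h
      simp only at this
      omega
    · refine ⟨-1, Or.inr rfl, fun j hj k h => ?_⟩
      have h1 : e j = 1 := (he j).resolve_right hj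
      simp only [h1, if_true] at h
      have := congrArg Fin.val h
      simp only at this
      omega

lemma tele {a b : ℝ} (ha : 0 < a) (hb : 0 < b) (M : ℕ) :
    ∑ m ∈ Finset.range M, 2 * a ^ 2 * ((b + (m + 1) * a) ^ 2)⁻¹ ≤
      2 * a / b - 2 * a / (b + M * a) := by
  induction M with
  | zero => simp
  | succ M ih =>
    rw [Finset.sum_range_succ]
    have h1 : 0 < b + M * a := by positivity
    have h2 : 0 < b + (M + 1) * a := by positivity
    have h3 : 2 * a ^ 2 * ((b + (M + 1) * a) ^ 2)⁻¹ ≤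
        2 * a / (b + M * a) - 2 * a / (b + (M + 1) * a) := by
      have : 2 * a / (b + M * a) - 2 * a / (b + (M + 1) * a) =
          2 * a ^ 2 * ((b + M * a) * (b + (M + 1) * a))⁻¹ := by
        field_simp
        ring
      rw [this]
      refine mul_le_mul_of_nonneg_left (inv_anti₀ (by positivity) ?_) (by positivity)
      nlinarith
    push_cast
    linarith

lemma far_est {q ρ τ η Qv : ℝ} (hq0 : 0 < q) (_hq1 : q < 1) (hρ : 0 < ρ) (hτ : 0 < τ)
    (hη : τ ^ 2 ≤ η) (h : (ρ / τ) ^ 2 < Qv) : 1 - η ≤ 1 - (1 - q) * ρ ^ 2 * Qv⁻¹ := by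
  have h0 : 0 < (ρ / τ) ^ 2 := by positivity
  have h1 : Qv⁻¹ ≤ ((ρ / τ) ^ 2)⁻¹ := inv_anti₀ h0 h.le
  have h2 : ρ ^ 2 * ((ρ / τ) ^ 2)⁻¹ = τ ^ 2 := by field_simp
  have h3 : ρ ^ 2 * Qv⁻¹ ≤ τ ^ 2 := h2 ▸ mul_le_mul_of_nonneg_left h1 (by positivity)
  have h4 : 0 ≤ ρ ^ 2 * Qv⁻¹ := mul_nonneg (by positivity) (inv_nonneg.2 (h0.trans h).le)
  nlinarith

lemma near_est {q ρ τ x₀ x₁ x₂ x₃ : ℝ} (hq0 : 0 < q) (hq1 : q < 1) (hρ : 0 < ρ) (hτ : 0 < τ)
    (hτ1 : τ ≤ 1 / 4) (h0 : |x₀| < τ * ρ) (h1 : |x₁| < τ * ρ) (h2 : |x₂| < τ * ρ)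
    (h3 : |x₃| < τ * ρ) :
    |1 - (1 - q) * ρ ^ 2 * ((x₀ - ρ) ^ 2 + (x₁ ^ 2 + x₂ ^ 2 + x₃ ^ 2))⁻¹ - q| ≤ 4 * τ := by
  set Qv := (x₀ - ρ) ^ 2 + (x₁ ^ 2 + x₂ ^ 2 + x₃ ^ 2) with hQ
  have s1 : x₁ ^ 2 ≤ (τ * ρ) ^ 2 := sq_le_sq' (abs_lt.1 h1).1.le (abs_lt.1 h1).2.le
  have s2 : x₂ ^ 2 ≤ (τ * ρ) ^ 2 := sq_le_sq' (abs_lt.1 h2).1.le (abs_lt.1 h2).2.le
  have s3 : x₃ ^ 2 ≤ (τ * ρ) ^ 2 := sq_le_sq' (abs_lt.1 h3).1.le (abs_lt.1 h3).2.le
  obtain ⟨l0, u0⟩ := abs_lt.1 h0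
  have hτρ : τ * ρ ≤ ρ / 4 := by nlinarith
  have lo : ((1 - τ) * ρ) ^ 2 ≤ Qv := by
    have : ((1 - τ) * ρ) ^ 2 ≤ (x₀ - ρ) ^ 2 := by
      rw [← neg_sq (x₀ - ρ)]
      exact pow_le_pow_left₀ (by nlinarith) (by nlinarith) 2
    nlinarith [sq_nonneg x₁, sq_nonneg x₂, sq_nonneg x₃]
  have up : Qv ≤ (1 + 2 * τ + 4 * τ ^ 2) * ρ ^ 2 := by
    have : (x₀ - ρ) ^ 2 ≤ ((1 + τ) * ρ) ^ 2 := sq_le_sq' (by nlinarith) (by nlinarith)
    nlinarith
  have hQ0 : 0 < Qv := lt_of_lt_of_le (by have : 0 < 1 - τ := by linarith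
                                          positivity) lo
  have hρ2 : 0 < ρ ^ 2 := by positivity
  have e1 : ρ ^ 2 * Qv⁻¹ ≤ 1 + 4 * τ := by
    rw [← div_eq_mul_inv, div_le_iff₀ hQ0]
    have : 1 ≤ (1 + 4 * τ) * (1 - τ) ^ 2 := by nlinarith [mul_pos hτ hτ, mul_pos hτ (mul_pos hτ hτ)]
    calc ρ ^ 2 = 1 * ρ ^ 2 := by ring
      _ ≤ (1 + 4 * τ) * (1 - τ) ^ 2 * ρ ^ 2 := mul_le_mul_of_nonneg_right this hρ2.le
      _ = (1 + 4 * τ) * ((1 - τ) * ρ) ^ 2 := by ring
      _ ≤ (1 + 4 * τ) * Qv := mul_le_mul_of_nonneg_left lo (by positivity)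
  have e2 : 1 - 4 * τ ≤ ρ ^ 2 * Qv⁻¹ := by
    rw [← div_eq_mul_inv, le_div_iff₀ hQ0]
    have : (1 - 4 * τ) * (1 + 2 * τ + 4 * τ ^ 2) ≤ 1 := by
      nlinarith [mul_pos hτ hτ, mul_pos hτ (mul_pos hτ hτ)]
    calc (1 - 4 * τ) * Qv ≤ (1 - 4 * τ) * ((1 + 2 * τ + 4 * τ ^ 2) * ρ ^ 2) :=
          mul_le_mul_of_nonneg_left up (by linarith)
      _ = (1 - 4 * τ) * (1 + 2 * τ + 4 * τ ^ 2) * ρ ^ 2 := by ring
      _ ≤ 1 * ρ ^ 2 := mul_le_mul_of_nonneg_right this hρ2.le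
      _ = ρ ^ 2 := by ring
  have e3 : 1 - (1 - q) * ρ ^ 2 * Qv⁻¹ - q = (1 - q) * (1 - ρ ^ 2 * Qv⁻¹) := by ring
  rw [e3, abs_le]
  constructor <;> nlinarith

lemma Q_nonneg {n : ℕ} (i₀ i₁ i₂ i₃ : Fin n) (t : ℝ) (z : E n) : 0 ≤ Q i₀ i₁ i₂ i₃ t z := by
  unfold Q
  positivity

/-- One term of the barrier is at least one on the tube. -/
lemma tube_term {a b x X : ℝ} {M : ℕ} (ha : 1 ≤ a) (hb : 0 < b) (hX0 : 0 ≤ X) (hX : X ≤ a ^ 2)
    (hx : b ≤ x) (hM : x ≤ M) :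
    ∃ m ∈ Finset.range M, 1 ≤ 2 * a ^ 2 * ((x - (b + (m + 1) * a)) ^ 2 + X)⁻¹ := by
  have ha0 : 0 < a := by linarith
  have hy : 0 ≤ (x - b) / a := div_nonneg (by linarith) ha0.le
  have f1 := Nat.floor_le hy
  have f2 := Nat.lt_floor_add_one ((x - b) / a)
  set m := ⌊(x - b) / a⌋₊
  rw [le_div_iff₀ ha0] at f1
  rw [div_lt_iff₀ ha0] at f2
  have hm0 : (0 : ℝ) ≤ m := Nat.cast_nonneg m
  refine ⟨m, Finset.mem_range.2 ?_, ?_⟩
  · have : (m : ℝ) < M := by nlinarith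
    exact_mod_cast this
  · have h1 : 0 < (x - (b + (m + 1) * a)) ^ 2 := by
      have : x - (b + (m + 1) * a) ≠ 0 := by linarith
      positivity
    have h2 : (x - (b + (m + 1) * a)) ^ 2 ≤ a ^ 2 := sq_le_sq' (by linarith) (by linarith)
    rw [← div_eq_mul_inv, le_div_iff₀ (by linarith)]
    linarith

theorem exists_geo {n : ℕ} (hn : 8 ≤ n) (J : ℕ) {q e : ℕ → ℝ} (hq0 : ∀ j < J, 0 < q j)
    (hq1 : ∀ j < J, q j < 1) (he : ∀ j, e j = 1 ∨ e j = -1) {η : ℝ} (hη : 0 < η) (hη1 : η < 1)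
    (hηq : ∀ j < J, η < q j) :
    ∃ (D : Set (E n)) (s : ℕ → E n → ℝ) (K : E n → ℝ), Geo n J q e η D s K := by
  classical
  obtain ⟨κ, hκ, hsep⟩ := exists_blocks hn he
  have hne : ∀ j, ∀ k k' : Fin 4, k ≠ k' → κ j k ≠ κ j k' := fun j k k' h h' => h (hκ j h')
  obtain ⟨τ, hτ⟩ : ∃ τ : ℝ, τ = η / 4 := ⟨_, rfl⟩
  have hτ0 : 0 < τ := by linarith
  have hτ1 : τ ≤ 1 / 4 := by linarith
  have hτη : τ ^ 2 ≤ η := by nlinarith
  obtain ⟨L, hL⟩ : ∃ L : ℝ, L = (4 * J * n + 1) / η := ⟨_, rfl⟩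
  have hJn : (0 : ℝ) ≤ 4 * J * n := by positivity
  have hL1 : 1 < L := by rw [hL, one_lt_div hη]; linarith
  obtain ⟨Λ, hΛ⟩ : ∃ Λ : ℝ, Λ = L / τ ^ 2 := ⟨_, rfl⟩
  have hΛ1 : 1 ≤ Λ := by rw [hΛ, one_le_div (by positivity)]; linarith
  let ρ : ℕ → ℝ := fun j => Λ ^ j
  let a : ℕ → ℝ := fun j => ρ j / τ
  let b : ℕ → ℝ := fun j => τ * ρ (j + 1)
  have hρ1 : ∀ j, 1 ≤ ρ j := fun j => one_le_pow₀ hΛ1
  have hρ0 : ∀ j, 0 < ρ j := fun j => lt_of_lt_of_le one_pos (hρ1 j)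
  have hρm : ∀ i j, i ≤ j → ρ i ≤ ρ j := fun i j h => pow_le_pow_right₀ hΛ1 h
  have ha1 : ∀ j, 1 ≤ a j := fun j => by
    simp only [a]
    rw [one_le_div hτ0]
    linarith [hρ1 j]
  have ha0 : ∀ j, 0 < a j := fun j => lt_of_lt_of_le one_pos (ha1 j)
  have hba : ∀ j, b j = L * a j := fun j => by
    simp only [a, b, ρ, pow_succ, hΛ]
    field_simp
  have hab : ∀ j, a j < b j := fun j => by rw [hba]; nlinarith [ha0 j]
  have hb0 : ∀ j, 0 < b j := fun j => (ha0 j).trans (hab j)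
  have hbm : ∀ i j, i ≤ j → b i ≤ b j := fun i j h =>
    mul_le_mul_of_nonneg_left (hρm _ _ (Nat.succ_le_succ h)) hτ0.le
  let X : ℕ → E n → ℝ := fun j z => z (κ j 1) ^ 2 + z (κ j 2) ^ 2 + z (κ j 3) ^ 2
  let Qs : ℕ → E n → ℝ := fun j => Q (κ j 0) (κ j 1) (κ j 2) (κ j 3) (ρ j)
  let s : ℕ → E n → ℝ := fun j z => 1 - (1 - q j) * ρ j ^ 2 * (Qs j z)⁻¹
  let Out : ℕ → Fin n → Prop := fun j k => k ≠ κ j 1 ∧ k ≠ κ j 2 ∧ k ≠ κ j 3
  let Good : E n → Prop := fun z => ∀ j < J, ∀ k, Out j k → a j ^ 2 < X j z ∨ |z k| < b j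
  let D₀ : Set (E n) := {z | (∀ k, |z k| < b J) ∧ (∀ j < J, (1 - q j) * ρ j ^ 2 < Qs j z) ∧ Good z}
  let C₀ : Set (E n) := {z | (∀ k, |z k| ≤ b J) ∧ (∀ j < J, (1 - q j) * ρ j ^ 2 ≤ Qs j z) ∧
    ∀ j < J, ∀ k, Out j k → a j ^ 2 ≤ X j z ∨ |z k| ≤ b j}
  let M : ℕ := ⌈b J⌉₊
  let T : ℕ → Fin n → ℕ → E n → ℝ := fun j k m z =>
    2 * a j ^ 2 * (Q k (κ j 1) (κ j 2) (κ j 3) (b j + (m + 1) * a j) z)⁻¹ +
      2 * a j ^ 2 * (Q k (κ j 1) (κ j 2) (κ j 3) (-(b j + (m + 1) * a j)) z)⁻¹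
  let K : E n → ℝ := fun z => ∑ j ∈ Finset.range J, ∑ k ∈ Finset.univ.filter (Out j),
    ∑ m ∈ Finset.range M, T j k m z
  have hXc : ∀ j, Continuous (X j) := fun j => by simp only [X]; fun_prop
  have hQc : ∀ j, Continuous (Qs j) := fun j => Q_cont _ _ _ _ _
  have hkc : ∀ k : Fin n, Continuous (fun z : E n => |z k|) := fun k => by fun_prop
  have hX0 : ∀ j z, 0 ≤ X j z := fun j z => by simp only [X]; positivity
  have hr0 : ∀ j < J, 0 < (1 - q j) * ρ j ^ 2 := fun j hj =>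
    mul_pos (by linarith [hq1 j hj]) (pow_pos (hρ0 j) 2)
  have hD₀o : IsOpen D₀ := by
    simp only [D₀, Good, ofPred_and, ofPred_forall]
    refine (isOpen_iInter_of_finite fun k => isOpen_lt (hkc k) continuous_const).inter
      (IsOpen.inter ?_ ?_)
    · exact (Set.finite_lt_nat J).isOpen_biInter fun j _ => isOpen_lt continuous_const (hQc j)
    · refine (Set.finite_lt_nat J).isOpen_biInter fun j _ => isOpen_iInter_of_finite fun k =>
        isOpen_iInter_of_finite fun _ => ?_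
      exact (isOpen_lt continuous_const (hXc j)).union (isOpen_lt (hkc k) continuous_const)
  have hC₀c : IsClosed C₀ := by
    simp only [C₀, ofPred_and, ofPred_forall]
    refine (isClosed_iInter fun k => isClosed_le (hkc k) continuous_const).inter
      (IsClosed.inter ?_ ?_)
    · exact isClosed_iInter fun j => isClosed_iInter fun _ => isClosed_le continuous_const (hQc j)
    · refine isClosed_iInter fun j => isClosed_iInter fun _ => isClosed_iInter fun k =>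
        isClosed_iInter fun _ => ?_
      exact (isClosed_le continuous_const (hXc j)).union (isClosed_le (hkc k) continuous_const)
  have hDC : D₀ ⊆ C₀ := fun z hz => ⟨fun k => (hz.1 k).le, fun j hj => (hz.2.1 j hj).le,
    fun j hj k hk => (hz.2.2 j hj k hk).imp le_of_lt le_of_lt⟩
  have hQ0 : ∀ j, Qs j 0 = ρ j ^ 2 := fun j => by simp [Qs, Q]
  have h0 : (0 : E n) ∈ D₀ := by
    refine ⟨fun k => by simpa using hb0 J, fun j hj => ?_, fun j _ k _ => Or.inr ?_⟩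
    · rw [hQ0]
      nlinarith [hq0 j hj, pow_pos (hρ0 j) 2]
    · simpa using hb0 j
  have hsub : connectedComponentIn D₀ 0 ⊆ D₀ := connectedComponentIn_subset _ _
  have hcl : closure (connectedComponentIn D₀ 0) ⊆ C₀ :=
    closure_minimal (hsub.trans hDC) hC₀c
  have hQpos : ∀ j < J, ∀ z ∈ C₀, 0 < Qs j z := fun j hj z hz =>
    lt_of_lt_of_le (hr0 j hj) (hz.2.1 j hj)
  have hfar : ∀ z, Good z → ∀ j < J, ∀ k, b j ≤ |z k| → 1 - η ≤ s j z := by
    intro z hz j hj k hk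
    have h1 : a j ^ 2 < X j z := by
      by_cases ho : Out j k
      · exact (hz j hj k ho).resolve_right (not_lt.2 hk)
      · have h2 : a j ^ 2 < z k ^ 2 := by
          rw [← sq_abs (z k)]
          exact pow_lt_pow_left₀ (lt_of_lt_of_le (hab j) hk) (ha0 j).le two_ne_zero
        have h3 : z k ^ 2 ≤ X j z := by
          simp only [Out, not_and_or, not_not] at ho
          simp only [X]
          rcases ho with h | h | h <;> rw [h] <;>
            nlinarith [sq_nonneg (z (κ j 1)), sq_nonneg (z (κ j 2)), sq_nonneg (z (κ j 3))]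
        linarith
    refine far_est (hq0 j hj) (hq1 j hj) (hρ0 j) hτ0 hτη (lt_of_lt_of_le h1 ?_)
    simp only [X, Qs, Q]
    nlinarith [sq_nonneg (z (κ j 0) - ρ j)]
  have hnear : ∀ z : E n, ∀ j < J, (∀ k, |z k| < τ * ρ j) → |s j z - q j| ≤ η := by
    intro z j hj hz
    have := near_est (hq0 j hj) (hq1 j hj) (hρ0 j) hτ0 hτ1 (hz (κ j 0)) (hz (κ j 1)) (hz (κ j 2))
      (hz (κ j 3))
    exact this.trans (by linarith)
  have hact : ∀ z, Good z → (∀ k, |z k| < b J) → ∃ l ≤ J, Act J q η l (fun i => s i z) := by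
    intro z hz hJ
    have hex : ∃ l, ∀ k, |z k| < b l := ⟨J, hJ⟩
    have hle : Nat.find hex ≤ J := Nat.find_min' hex hJ
    refine ⟨Nat.find hex, hle, fun i hi => ?_, fun i hi hli => ?_⟩
    · have := Nat.find_min hex hi
      push Not at this
      obtain ⟨k, hk⟩ := this
      exact hfar z hz i (lt_of_lt_of_le hi hle) k hk
    · exact hnear z i hi fun k => lt_of_lt_of_le (Nat.find_spec hex k)
        (mul_le_mul_of_nonneg_left (hρm _ _ hli) hτ0.le)
  have hT0 : ∀ j k m z, 0 ≤ T j k m z := fun j k m z =>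
    add_nonneg (mul_nonneg (by positivity) (inv_nonneg.2 (Q_nonneg _ _ _ _ _ _)))
      (mul_nonneg (by positivity) (inv_nonneg.2 (Q_nonneg _ _ _ _ _ _)))
  refine ⟨connectedComponentIn D₀ 0, s, K, hD₀o.connectedComponentIn,
    isConnected_connectedComponentIn_iff.2 h0, ?_, mem_connectedComponentIn h0,
    fun j hj z hz => ?_, fun z hz => ?_, fun j hj => ?_, fun j hj z hz => ?_, fun i => ?_,
    fun z hz => hact z (hsub hz).2.2 (hsub hz).1, fun z _ => ?_, ?_, fun z hz hz' => ?_⟩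
  · refine isBounded_iff_forall_norm_le.2 ⟨√(∑ _k : Fin n, b J ^ 2), fun z hz => ?_⟩
    rw [EuclideanSpace.norm_eq]
    refine Real.sqrt_le_sqrt (Finset.sum_le_sum fun k _ => ?_)
    exact pow_le_pow_left₀ (norm_nonneg _) ((hsub hz).1 k).le 2
  · have h1 := harm_invQ (hne j 0 1 (by decide)) (hne j 0 2 (by decide)) (hne j 0 3 (by decide))
      (hne j 1 2 (by decide)) (hne j 1 3 (by decide)) (hne j 2 3 (by decide)) (ρ j)
      (hQpos j hj z (hcl hz)).ne'
    exact (harmonicAt_const (1 : ℝ)).sub (harm_mul ((1 - q j) * ρ j ^ 2) h1)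
  · refine harm_sum _ fun j hj => harm_sum _ fun k hk => harm_sum _ fun m _ => ?_
    have hj' := Finset.mem_range.1 hj
    have ho : Out j k := (Finset.mem_filter.1 hk).2
    have hm : b j < b j + (m + 1) * a j := by
      have : 0 < ((m : ℝ) + 1) * a j := mul_pos (by positivity) (ha0 j)
      linarith
    have hpos : ∀ t : ℝ, b j < |t| → Q k (κ j 1) (κ j 2) (κ j 3) t z ≠ 0 := by
      intro t ht
      rcases (hcl hz).2.2 j hj' k ho with h | h
      · have : 0 < a j ^ 2 := pow_pos (ha0 j) 2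
        have h' : 0 < (z k - t) ^ 2 + X j z := by nlinarith [sq_nonneg (z k - t)]
        exact h'.ne'
      · have h1 : z k - t ≠ 0 := fun h2 => by
          rw [sub_eq_zero] at h2
          rw [h2] at h
          linarith
        have h' : 0 < (z k - t) ^ 2 + X j z := by
          have : 0 < (z k - t) ^ 2 := by positivity
          linarith [hX0 j z]
        exact h'.ne'
    have hp : 0 < b j + (m + 1) * a j := (hb0 j).trans hm
    exact (harm_mul _ (harm_invQ ho.1 ho.2.1 ho.2.2 (hne j 1 2 (by decide)) (hne j 1 3 (by decide))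
      (hne j 2 3 (by decide)) _ (hpos _ (by rwa [abs_of_pos hp])))).add
      (harm_mul _ (harm_invQ ho.1 ho.2.1 ho.2.2 (hne j 1 2 (by decide)) (hne j 1 3 (by decide))
      (hne j 2 3 (by decide)) _ (hpos _ (by rwa [abs_neg, abs_of_pos hp]))))
  · have := (hρ0 j).ne'
    simp only [s, hQ0]
    field_simp
    ring
  · have h1 := hQpos j hj z (hcl hz)
    have h2 := (hcl hz).2.1 j hj
    have h3 : (1 - q j) * ρ j ^ 2 * (Qs j z)⁻¹ ≤ 1 := by
      rw [← div_eq_mul_inv, div_le_one h1]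
      exact h2
    have h4 : 0 ≤ (1 - q j) * ρ j ^ 2 * (Qs j z)⁻¹ := mul_nonneg (hr0 j hj).le (inv_nonneg.2 h1.le)
    simp only [s]
    constructor <;> linarith
  · obtain ⟨σ, hσ, h⟩ := hsep i
    exact ⟨σ, hσ, fun j hj hjσ z hz => fderiv_off (h j hjσ 0) (h j hjσ 1) (h j hjσ 2) (h j hjσ 3)
      _ _ (hQpos j hj z (hDC (hsub hz))).ne'⟩
  · exact Finset.sum_nonneg fun j _ => Finset.sum_nonneg fun k _ =>
      Finset.sum_nonneg fun m _ => hT0 j k m z
  · have h1 : ∀ j k, ∑ m ∈ Finset.range M, T j k m 0 ≤ 4 / L := by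
      intro j k
      have h2 : ∀ m : ℕ, T j k m 0 = 2 * (2 * a j ^ 2 * ((b j + (m + 1) * a j) ^ 2)⁻¹) := by
        intro m
        simp only [T, Q, PiLp.zero_apply, zero_sub, neg_neg, neg_sq]
        norm_num
        ring
      simp only [h2]
      rw [← Finset.mul_sum]
      have h3 := tele (ha0 j) (hb0 j) M
      have h4 : 0 ≤ 2 * a j / (b j + M * a j) := by
        have := ha0 j
        have := hb0 j
        positivity
      have h5 : 2 * a j / b j = 2 / L := by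
        have := (ha0 j).ne'
        rw [hba]
        field_simp
      have h6 : 4 / L = 2 * (2 / L) := by ring
      linarith
    have hL0 : 0 < L := by linarith
    have h7 : ∀ j, ∑ k ∈ Finset.univ.filter (Out j), ∑ m ∈ Finset.range M, T j k m 0 ≤
        n * (4 / L) := by
      intro j
      refine (Finset.sum_le_card_nsmul _ _ _ fun k _ => h1 j k).trans ?_
      rw [nsmul_eq_mul]
      refine mul_le_mul_of_nonneg_right ?_ (by positivity)
      have := Finset.card_filter_le (Finset.univ : Finset (Fin n)) (Out j)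
      rw [Finset.card_univ, Fintype.card_fin] at this
      exact_mod_cast this
    refine (Finset.sum_le_card_nsmul _ _ _ fun j _ => h7 j).trans ?_
    rw [nsmul_eq_mul, Finset.card_range]
    have h8 : (J : ℝ) * (n * (4 / L)) = 4 * J * n / L := by ring
    rw [h8, div_le_iff₀ hL0, hL, mul_div_cancel₀ _ hη.ne']
    linarith
  · have hzC := hcl hz
    have hzD : z ∉ D₀ := not_mem_of_closure_comp hD₀o 0 hz hz'
    by_cases hG : Good z
    · refine Or.inr ?_
      by_cases hJ : ∀ k, |z k| < b J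
      · refine Or.inl ?_
        obtain ⟨j, hj, hQ⟩ : ∃ j < J, Qs j z ≤ (1 - q j) * ρ j ^ 2 := by
          by_contra hcon
          push Not at hcon
          exact hzD ⟨hJ, hcon, hG⟩
        have hs0 : s j z = 0 := by
          have h1 : Qs j z = (1 - q j) * ρ j ^ 2 := le_antisymm hQ (hzC.2.1 j hj)
          simp only [s]
          rw [h1, mul_inv_cancel₀ (hr0 j hj).ne', sub_self]
        obtain ⟨l, _, hl⟩ := hact z hG hJ
        have hjl : j = l := by
          rcases lt_trichotomy j l with h | h | h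
          · have := hl.1 j h
            simp only [hs0] at this
            linarith
          · exact h
          · have := hl.2 j hj h
            simp only [hs0, zero_sub, abs_neg] at this
            linarith [le_abs_self (q j), hηq j hj]
        subst hjl
        exact ⟨j, hj, hl, hs0⟩
      · push Not at hJ
        obtain ⟨k, hk⟩ := hJ
        exact Or.inr ⟨fun i hi => hfar z hG i hi k ((hbm i J hi.le).trans hk),
          fun i hi hi' => absurd hi (not_lt.2 hi'.le)⟩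
    · refine Or.inl ?_
      simp only [Good] at hG
      push Not at hG
      obtain ⟨j, hj, k, ho, hX, hk⟩ := hG
      obtain ⟨m, hm, h1⟩ := tube_term (M := M) (ha1 j) (hb0 j) (hX0 j z) hX hk
        ((hzC.1 k).trans (Nat.le_ceil _))
      have h2 : 1 ≤ T j k m z := by
        have n1 : ∀ t, 0 ≤ 2 * a j ^ 2 * (Q k (κ j 1) (κ j 2) (κ j 3) t z)⁻¹ := fun t =>
          mul_nonneg (by positivity) (inv_nonneg.2 (Q_nonneg _ _ _ _ _ _))
        rcases abs_cases (z k) with h | h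
        · rw [h.1] at h1
          exact h1.trans (le_add_of_nonneg_right (n1 _))
        · rw [h.1] at h1
          refine le_trans ?_ (le_add_of_nonneg_left (n1 _))
          have e1 : (-z k - (b j + (m + 1) * a j)) ^ 2 = (z k - -(b j + (m + 1) * a j)) ^ 2 := by
            ring
          rw [e1] at h1
          exact h1
      calc (1 : ℝ) ≤ T j k m z := h2
        _ ≤ ∑ m ∈ Finset.range M, T j k m z :=
          Finset.single_le_sum (f := fun m => T j k m z) (fun m _ => hT0 j k m z) hm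
        _ ≤ ∑ k ∈ Finset.univ.filter (Out j), ∑ m ∈ Finset.range M, T j k m z :=
          Finset.single_le_sum (f := fun k => ∑ m ∈ Finset.range M, T j k m z)
            (fun k _ => Finset.sum_nonneg fun m _ => hT0 j k m z)
            (Finset.mem_filter.2 ⟨Finset.mem_univ _, ho⟩)
        _ ≤ K z :=
          Finset.single_le_sum (f := fun j => ∑ k ∈ Finset.univ.filter (Out j),
            ∑ m ∈ Finset.range M, T j k m z)
            (fun j _ => Finset.sum_nonneg fun k _ => Finset.sum_nonneg fun m _ => hT0 j k m z)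
            (Finset.mem_range.2 hj)

end Pool.Agent.Lib.MP_540347_an.SC
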