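import Pool.Agent.Lib.MP_540347_an.SC.Defs

set_option autoImplicit false

open Set InnerProductSpace Filter Topology

namespace Pool.Agent.Lib.MP_540347_an.SC

/-- The second derivative along a line. -/
theorem d2_line {n : ℕ} {f : E n → ℝ} {z : E n} (v : E n) (hf : ContDiffAt ℝ 2 f z) :
    iteratedFDeriv ℝ 2 f z ![v, v] = deriv (deriv (fun t : ℝ => f (z + t • v))) 0 := by
  have hl : ∀ t : ℝ, HasDerivAt (fun t : ℝ => z + t • v) v t := fun t => by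
    simpa using ((hasDerivAt_id t).smul_const v).const_add z
  have h0 : z + (0 : ℝ) • v = z := by simp
  have hc : Tendsto (fun t : ℝ => z + t • v) (𝓝 0) (𝓝 z) := by
    have h1 := (hl 0).continuousAt.tendsto
    rwa [h0] at h1
  have h1 : deriv (fun t : ℝ => f (z + t • v)) =ᶠ[𝓝 0] fun t => fderiv ℝ f (z + t • v) v := by
    filter_upwards [hc.eventually (hf.eventually (by simp))] with t ht
    exact ((ht.differentiableAt (by simp)).hasFDerivAt.comp_hasDerivAt t (hl t)).deriv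
  have h2 : HasFDerivAt (fderiv ℝ f) (fderiv ℝ (fderiv ℝ f) z) (z + (0 : ℝ) • v) := by
    rw [h0]
    exact ((hf.fderiv_right (m := 1) (by norm_num)).differentiableAt (by simp)).hasFDerivAt
  have h3 : HasDerivAt (fun t : ℝ => fderiv ℝ f (z + t • v)) (fderiv ℝ (fderiv ℝ f) z v) 0 :=
    h2.comp_hasDerivAt 0 (hl 0)
  have h4 : HasDerivAt (fun t : ℝ => fderiv ℝ f (z + t • v) v) (fderiv ℝ (fderiv ℝ f) z v v) 0 := by
    have h5 := h3.clm_apply (hasDerivAt_const (0 : ℝ) v)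
    rwa [map_zero, add_zero] at h5
  rw [h1.deriv_eq, iteratedFDeriv_two_apply, h4.deriv]
  simp

theorem Q_cont {n : ℕ} (i₀ i₁ i₂ i₃ : Fin n) (t : ℝ) : Continuous (Q i₀ i₁ i₂ i₃ t) := by
  unfold Q
  fun_prop

theorem ker_Q_sm {n : ℕ} (i₀ i₁ i₂ i₃ : Fin n) (t : ℝ) : ContDiff ℝ 2 (Q i₀ i₁ i₂ i₃ t) := by
  unfold Q
  fun_prop

theorem ker_d2_inv {A b g : ℝ} (hA : A ≠ 0) :
    deriv (deriv (fun s : ℝ => (A + 2 * b * s + g * s ^ 2)⁻¹)) 0 =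
      -2 * g / A ^ 2 + 8 * b ^ 2 / A ^ 3 := by
  have hp : ∀ s : ℝ, HasDerivAt (fun s : ℝ => A + 2 * b * s + g * s ^ 2) (2 * b + 2 * g * s) s := by
    intro s
    have h1 := (((hasDerivAt_id s).const_mul (2 * b)).const_add A).add
      ((hasDerivAt_pow 2 s).const_mul g)
    refine h1.congr_deriv ?_
    simp
    ring
  have hq : HasDerivAt (fun s : ℝ => -(2 * b + 2 * g * s)) (-(2 * g)) 0 := by
    have h1 := (((hasDerivAt_id (0 : ℝ)).const_mul (2 * g)).const_add (2 * b)).neg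
    rw [mul_one] at h1
    exact h1
  have h0 : A + 2 * b * 0 + g * 0 ^ 2 ≠ 0 := by simpa using hA
  have h1 : deriv (fun s : ℝ => (A + 2 * b * s + g * s ^ 2)⁻¹) =ᶠ[𝓝 0]
      fun s => -(2 * b + 2 * g * s) / (A + 2 * b * s + g * s ^ 2) ^ 2 := by
    filter_upwards [(hp 0).continuousAt.eventually_ne h0] with s hs
    exact ((hp s).inv hs).deriv
  have h2 := hq.div ((hp 0).pow 2) (pow_ne_zero 2 h0)
  rw [h1.deriv_eq]
  refine h2.deriv.trans ?_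
  simp
  field_simp
  ring

/-- The Newton kernel of `ℝ⁴` is harmonic. -/
theorem harm_invQ {n : ℕ} {i₀ i₁ i₂ i₃ : Fin n} (h01 : i₀ ≠ i₁) (h02 : i₀ ≠ i₂) (h03 : i₀ ≠ i₃)
    (h12 : i₁ ≠ i₂) (h13 : i₁ ≠ i₃) (h23 : i₂ ≠ i₃) (t : ℝ) {z : E n}
    (hz : Q i₀ i₁ i₂ i₃ t z ≠ 0) : HarmonicAt (fun x => (Q i₀ i₁ i₂ i₃ t x)⁻¹) z := by
  have hs : ∀ x : E n, Q i₀ i₁ i₂ i₃ t x ≠ 0 →
      ContDiffAt ℝ 2 (fun x => (Q i₀ i₁ i₂ i₃ t x)⁻¹) x :=
    fun x hx => (ker_Q_sm i₀ i₁ i₂ i₃ t).contDiffAt.inv hx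
  refine ⟨hs z hz, ?_⟩
  filter_upwards [(Q_cont i₀ i₁ i₂ i₃ t).continuousAt.eventually_ne hz] with x hx
  rw [laplacian_eq_iteratedFDeriv_orthonormalBasis _ (EuclideanSpace.basisFun (Fin n) ℝ)]
  have key : ∀ i : Fin n, iteratedFDeriv ℝ 2 (fun x => (Q i₀ i₁ i₂ i₃ t x)⁻¹) x
      ![EuclideanSpace.basisFun (Fin n) ℝ i, EuclideanSpace.basisFun (Fin n) ℝ i] =
      (if i₀ = i then -2 / Q i₀ i₁ i₂ i₃ t x ^ 2 + 8 * (x i₀ - t) ^ 2 / Q i₀ i₁ i₂ i₃ t x ^ 3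
        else 0) +
      (if i₁ = i then -2 / Q i₀ i₁ i₂ i₃ t x ^ 2 + 8 * x i₁ ^ 2 / Q i₀ i₁ i₂ i₃ t x ^ 3 else 0) +
      (if i₂ = i then -2 / Q i₀ i₁ i₂ i₃ t x ^ 2 + 8 * x i₂ ^ 2 / Q i₀ i₁ i₂ i₃ t x ^ 3 else 0) +
      (if i₃ = i then -2 / Q i₀ i₁ i₂ i₃ t x ^ 2 + 8 * x i₃ ^ 2 / Q i₀ i₁ i₂ i₃ t x ^ 3
        else 0) := by
    intro i
    rw [d2_line _ (hs x hx)]
    set v : E n := EuclideanSpace.basisFun (Fin n) ℝ i with hv
    have h1 : (fun s : ℝ => (Q i₀ i₁ i₂ i₃ t (x + s • v))⁻¹) = fun s : ℝ =>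
        (Q i₀ i₁ i₂ i₃ t x + 2 * ((x i₀ - t) * v i₀ + x i₁ * v i₁ + x i₂ * v i₂ + x i₃ * v i₃) * s +
          (v i₀ ^ 2 + v i₁ ^ 2 + v i₂ ^ 2 + v i₃ ^ 2) * s ^ 2)⁻¹ := by
      funext s
      congr 1
      simp only [Q, PiLp.add_apply, PiLp.smul_apply, smul_eq_mul]
      ring
    have h2 : ∀ k, v k = if k = i then 1 else 0 := fun k => by
      simp [hv]
    rw [h1, ker_d2_inv hx, h2, h2, h2, h2]
    by_cases e0 : i₀ = i
    · subst e0
      simp [h01.symm, h02.symm, h03.symm]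
    by_cases e1 : i₁ = i
    · subst e1
      simp [h01, h12.symm, h13.symm]
    by_cases e2 : i₂ = i
    · subst e2
      simp [h02, h12, h23.symm]
    by_cases e3 : i₃ = i
    · subst e3
      simp [h03, h13, h23]
    simp [e0, e1, e2, e3]
  simp only [key, Finset.sum_add_distrib, Finset.sum_ite_eq, Finset.mem_univ, if_true,
    Pi.zero_apply]
  have h3 : (x i₀ - t) ^ 2 = Q i₀ i₁ i₂ i₃ t x - (x i₁ ^ 2 + x i₂ ^ 2 + x i₃ ^ 2) := by
    simp [Q]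
  rw [h3]
  field_simp
  ring

/-- The kernel does not depend on the other coordinates. -/
theorem fderiv_off {n : ℕ} {i₀ i₁ i₂ i₃ i : Fin n} (h0 : i ≠ i₀) (h1 : i ≠ i₁) (h2 : i ≠ i₂)
    (h3 : i ≠ i₃) (t a : ℝ) {z : E n} (hz : Q i₀ i₁ i₂ i₃ t z ≠ 0) :
    fderiv ℝ (fun x => 1 - a * (Q i₀ i₁ i₂ i₃ t x)⁻¹) z (EuclideanSpace.single i (1 : ℝ)) = 0 := by
  have hd : DifferentiableAt ℝ (fun x => 1 - a * (Q i₀ i₁ i₂ i₃ t x)⁻¹) z :=
    ((((ker_Q_sm i₀ i₁ i₂ i₃ t).contDiffAt.inv hz).differentiableAt (by simp)).const_mul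
      a).const_sub 1
  rw [← hd.lineDeriv_eq_fderiv, lineDeriv]
  have h : (fun s : ℝ => 1 - a * (Q i₀ i₁ i₂ i₃ t
      (z + s • EuclideanSpace.single i (1 : ℝ)))⁻¹) = fun _ => 1 - a * (Q i₀ i₁ i₂ i₃ t z)⁻¹ := by
    funext s
    simp [Q, h0.symm, h1.symm, h2.symm, h3.symm]
  rw [h, deriv_const]

theorem harm_sum {n : ℕ} {ι : Type} (S : Finset ι) {f : ι → E n → ℝ} {z : E n}
    (h : ∀ i ∈ S, HarmonicAt (f i) z) : HarmonicAt (fun x => ∑ i ∈ S, f i x) z := by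
  classical
  induction S using Finset.induction_on with
  | empty => simp
  | insert a S ha ih =>
    simp only [Finset.sum_insert ha]
    exact (h a (Finset.mem_insert_self _ _)).add
      (ih fun i hi => h i (Finset.mem_insert_of_mem hi))

theorem harm_mul {n : ℕ} (a : ℝ) {f : E n → ℝ} {z : E n} (h : HarmonicAt f z) :
    HarmonicAt (fun x => a * f x) z :=
  h.const_smul (c := a)

theorem harm_aff {n J : ℕ} (q : ℕ → ℝ) (x₀ : ℝ) (α : ℕ → ℝ) {s : ℕ → E n → ℝ} {z : E n}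
    (h : ∀ j < J, HarmonicAt (s j) z) : HarmonicAt (fun x => aff J q x₀ α (fun i => s i x)) z := by
  unfold aff
  exact (harmonicAt_const x₀).add (harm_sum (Finset.range J) fun i hi =>
    harm_mul (α i) ((h i (Finset.mem_range.1 hi)).sub (harmonicAt_const (q i))))

theorem fderiv_aff {n J : ℕ} (q : ℕ → ℝ) (x₀ : ℝ) (α : ℕ → ℝ) {s : ℕ → E n → ℝ} {z : E n}
    (h : ∀ j < J, HarmonicAt (s j) z) (v : E n) :
    fderiv ℝ (fun x => aff J q x₀ α (fun i => s i x)) z v =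
      ∑ i ∈ Finset.range J, α i * fderiv ℝ (s i) z v := by
  unfold aff
  have h1 : HasFDerivAt (fun x => x₀ + ∑ i ∈ Finset.range J, α i * (s i x - q i))
      (∑ i ∈ Finset.range J, α i • fderiv ℝ (s i) z) z :=
    (HasFDerivAt.fun_sum fun i hi =>
      ((((h i (Finset.mem_range.1 hi)).1.differentiableAt (by simp)).hasFDerivAt.sub_const
        (q i)).const_mul (α i))).const_add x₀
  rw [h1.fderiv]
  simp

end Pool.Agent.Lib.MP_540347_an.SC
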