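import Pool.Agent.Lib.MP_540347_an.SC.Kernel

set_option autoImplicit false

open Set InnerProductSpace Filter Topology Laplacian

namespace Pool.Agent.Lib.MP_540347_an.SC

theorem deriv2_nonneg_of_isLocalMin {g : ℝ → ℝ} (hc : ContinuousAt g 0) (hm : IsLocalMin g 0) :
    0 ≤ deriv (deriv g) 0 := by
  by_contra hneg
  push Not at hneg
  have hM : IsLocalMax g 0 := isLocalMax_of_deriv_deriv_neg hneg hm.deriv_eq_zero hc
  have hconst : g =ᶠ[𝓝 0] fun _ => g 0 := by
    filter_upwards [hm, hM] with t h1 h2 using le_antisymm h2 h1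
  have h1 : deriv g =ᶠ[𝓝 0] fun _ => (0 : ℝ) := by
    have h2 := hconst.deriv
    filter_upwards [h2] with t ht
    rw [ht]
    simp
  rw [h1.deriv_eq] at hneg
  simp at hneg

theorem lap_nonneg_of_isLocalMin {n : ℕ} {f : E n → ℝ} {z : E n} (hf : ContDiffAt ℝ 2 f z)
    (hm : IsLocalMin f z) : 0 ≤ (Δ f) z := by
  rw [laplacian_eq_iteratedFDeriv_orthonormalBasis f (EuclideanSpace.basisFun (Fin n) ℝ)]
  refine Finset.sum_nonneg fun i _ => ?_
  rw [d2_line _ hf]
  set v : E n := EuclideanSpace.basisFun (Fin n) ℝ i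
  have hl : ContinuousAt (fun t : ℝ => z + t • v) 0 := by fun_prop
  have h0 : z + (0 : ℝ) • v = z := by simp
  refine deriv2_nonneg_of_isLocalMin ?_ ?_
  · refine ContinuousAt.comp (f := fun t : ℝ => z + t • v) ?_ hl
    rw [h0]
    exact hf.continuousAt
  · refine IsLocalMin.comp_continuous (f := f) (g := fun t : ℝ => z + t • v) ?_ hl
    rw [h0]
    exact hm

theorem lap_normSq {n : ℕ} (z : E n) : (Δ (fun x : E n => ‖x‖ ^ 2)) z = 2 * (n : ℝ) := by
  rw [laplacian_eq_iteratedFDeriv_orthonormalBasis _ (EuclideanSpace.basisFun (Fin n) ℝ)]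
  have hc : ContDiffAt ℝ 2 (fun x : E n => ‖x‖ ^ 2) z := (contDiff_norm_sq ℝ).contDiffAt
  have h : ∀ i : Fin n, iteratedFDeriv ℝ 2 (fun x : E n => ‖x‖ ^ 2) z
      ![EuclideanSpace.basisFun (Fin n) ℝ i, EuclideanSpace.basisFun (Fin n) ℝ i] = 2 := by
    intro i
    rw [d2_line _ hc]
    set v : E n := EuclideanSpace.basisFun (Fin n) ℝ i with hv
    have hv1 : ‖v‖ = 1 := (EuclideanSpace.basisFun (Fin n) ℝ).orthonormal.1 i
    have hf : (fun t : ℝ => ‖z + t • v‖ ^ 2) =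
        fun t : ℝ => ‖z‖ ^ 2 + 2 * inner ℝ z v * t + t ^ 2 := by
      funext t
      rw [norm_add_sq_real, inner_smul_right, norm_smul, hv1, mul_one, Real.norm_eq_abs, sq_abs]
      ring
    have hd : deriv (fun t : ℝ => ‖z‖ ^ 2 + 2 * inner ℝ z v * t + t ^ 2) =
        fun t : ℝ => 2 * inner ℝ z v + 2 * t := by
      funext t
      have h1 : HasDerivAt (fun t : ℝ => ‖z‖ ^ 2 + 2 * inner ℝ z v * t + t ^ 2)
          (2 * inner ℝ z v * 1 + ((2 : ℕ) : ℝ) * t ^ (2 - 1)) t :=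
        (((hasDerivAt_id' t).const_mul (2 * inner ℝ z v)).const_add _).add (hasDerivAt_pow 2 t)
      rw [h1.deriv]
      norm_num
    rw [hf, hd]
    have h2 : HasDerivAt (fun t : ℝ => 2 * inner ℝ z v + 2 * t) (2 * 1) 0 :=
      ((hasDerivAt_id' (0 : ℝ)).const_mul 2).const_add _
    rw [h2.deriv]
    norm_num
  simp only [h]
  simp [mul_comm]

/-- Minimum principle for a harmonic function with a minorant continuous up to the boundary. -/
theorem min_principle {n : ℕ} (hn : 0 < n) {D : Set (E n)} (hD : IsOpen D)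
    (hb : Bornology.IsBounded D) {w φ : E n → ℝ} (hw : HarmonicOnNhd w D)
    (hφ : ContinuousOn φ (closure D)) (hle : ∀ z ∈ D, φ z ≤ w z)
    (hbd : ∀ z ∈ closure D, z ∉ D → 0 ≤ φ z) : ∀ z ∈ D, 0 ≤ w z := by
  intro z₀ hz₀
  by_contra hneg
  push Not at hneg
  obtain ⟨R, hR0, hR⟩ := hb.exists_pos_norm_le
  set t : ℝ := -w z₀ / 4 with ht
  have ht0 : 0 < t := by rw [ht]; linarith
  set τ : ℝ := t / R ^ 2 with hτ
  have hτ0 : 0 < τ := by positivity
  have hτR : τ * R ^ 2 = t := by rw [hτ]; field_simp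
  set F : E n → ℝ := fun z => w z + (τ * R ^ 2 - τ * ‖z‖ ^ 2) with hF
  have hwF : ∀ z ∈ D, w z ≤ F z := by
    intro z hz
    have h1 : ‖z‖ ^ 2 ≤ R ^ 2 := pow_le_pow_left₀ (norm_nonneg _) (hR z hz) 2
    have h2 := mul_le_mul_of_nonneg_left h1 hτ0.le
    simp only [hF]
    linarith
  have hF0 : F z₀ < -t := by
    have h1 : 0 ≤ τ * ‖z₀‖ ^ 2 := by positivity
    simp only [hF]
    linarith
  set K : Set (E n) := closure D ∩ φ ⁻¹' Iic (-t) with hK
  have hKc : IsClosed K := hφ.preimage_isClosed_of_isClosed isClosed_closure isClosed_Iic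
  have hKcomp : IsCompact K :=
    hb.isCompact_closure.of_isClosed_subset hKc inter_subset_left
  have hKD : K ⊆ D := by
    intro z hz
    by_contra hzD
    have h1 := hbd z hz.1 hzD
    have h2 : φ z ≤ -t := hz.2
    linarith
  have hz₀K : z₀ ∈ K := ⟨subset_closure hz₀, by
    have h1 := hle z₀ hz₀
    have h2 := hwF z₀ hz₀
    show φ z₀ ≤ -t
    linarith⟩
  have hN : ∀ z : E n, ContDiffAt ℝ 2 (fun x : E n => ‖x‖ ^ 2) z :=
    fun z => (contDiff_norm_sq ℝ).contDiffAt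
  have hFd : ∀ z ∈ D, ContDiffAt ℝ 2 F z := fun z hz =>
    (hw z hz).1.add (contDiffAt_const.sub (contDiffAt_const.mul (hN z)))
  have hFc : ContinuousOn F K := fun z hz => (hFd z (hKD hz)).continuousAt.continuousWithinAt
  obtain ⟨z₁, hz₁K, hmin⟩ := hKcomp.exists_isMinOn ⟨z₀, hz₀K⟩ hFc
  have hz₁ := hKD hz₁K
  have hF1 : F z₁ ≤ F z₀ := hmin hz₀K
  have hloc : IsLocalMin F z₁ := by
    filter_upwards [hD.mem_nhds hz₁] with z hz
    by_cases hzK : z ∈ K
    · exact hmin hzK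
    · have h1 : ¬ φ z ≤ -t := fun h => hzK ⟨subset_closure hz, h⟩
      have h2 := hle z hz
      have h3 := hwF z hz
      push Not at h1
      linarith
  have h1 := lap_nonneg_of_isLocalMin (hFd z₁ hz₁) hloc
  have hFe : F = w + ((fun _ : E n => τ * R ^ 2) - τ • fun x : E n => ‖x‖ ^ 2) := by
    funext z
    simp [hF]
  have hs : ContDiffAt ℝ 2 (τ • fun x : E n => ‖x‖ ^ 2) z₁ := (hN z₁).const_smul τ
  have hs' : ContDiffAt ℝ 2 ((fun _ : E n => τ * R ^ 2) - τ • fun x : E n => ‖x‖ ^ 2) z₁ :=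
    contDiffAt_const.sub hs
  have h2 : (Δ F) z₁ = -(τ * (2 * (n : ℝ))) := by
    rw [hFe, ContDiffAt.laplacian_add (hw z₁ hz₁).1 hs',
      ContDiffAt.laplacian_sub contDiffAt_const hs, laplacian_smul τ (hN z₁), lap_normSq,
      (hw z₁ hz₁).2.eq_of_nhds]
    simp
  have h3 : (0 : ℝ) < n := by exact_mod_cast hn
  have h4 : 0 < τ * (2 * (n : ℝ)) := by positivity
  linarith

theorem not_mem_of_closure_comp {n : ℕ} {U : Set (E n)} (hU : IsOpen U) (x : E n) {z : E n}
    (hz : z ∈ closure (connectedComponentIn U x)) (hz' : z ∉ connectedComponentIn U x) :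
    z ∉ U := by
  intro hzU
  have ho : IsOpen (connectedComponentIn U z) := hU.connectedComponentIn
  obtain ⟨y, hy1, hy2⟩ := mem_closure_iff.1 hz _ ho (mem_connectedComponentIn hzU)
  apply hz'
  rw [connectedComponentIn_eq hy2, ← connectedComponentIn_eq hy1]
  exact mem_connectedComponentIn hzU

end Pool.Agent.Lib.MP_540347_an.SC
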